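import Mathlib
import Pool.Agent.KO.Base

/-!
# Sizes and the action
-/

set_option autoImplicit false

namespace Pool.Agent.KO.Size

open Set Filter Topology

/-- The size of `(z, w)` of a point of the cone. -/
noncomputable def nP (p : Fin 6 → ℂ) : ℝ := max ‖p 0‖ (‖p 2‖ ^ (1 / 6 : ℝ))

/-- The point of the flip chart with the coordinates `A`, `z`, `w`. -/
def qOf (A : Fin 3 → ℂ) (y : ℂ × ℂ) : Fin 5 → ℂ := ![A 0, A 1, A 2, y.1, y.2]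

theorem nZ_nonneg (q : Fin 5 → ℂ) : 0 ≤ nZ q := le_max_of_le_left (norm_nonneg _)

theorem nA_nonneg (q : Fin 5 → ℂ) : 0 ≤ nA q := le_max_of_le_left (norm_nonneg _)

theorem nP_nonneg (p : Fin 6 → ℂ) : 0 ≤ nP p := le_max_of_le_left (norm_nonneg _)

theorem continuous_nZ : Continuous nZ := by
  unfold nZ
  refine Continuous.max (continuous_apply 3).norm ?_
  exact (continuous_apply 4).norm.rpow_const fun _ => Or.inr (by norm_num)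

theorem continuous_nP : Continuous nP := by
  unfold nP
  refine Continuous.max (continuous_apply 0).norm ?_
  exact (continuous_apply 2).norm.rpow_const fun _ => Or.inr (by norm_num)

theorem continuous_nA : Continuous nA := by
  unfold nA
  refine Continuous.max (continuous_apply 0).norm (Continuous.max ?_ ?_)
  · exact (continuous_apply 1).norm.rpow_const fun _ => Or.inr (by norm_num)
  · exact (continuous_apply 2).norm.rpow_const fun _ => Or.inr (by norm_num)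

theorem isOpen_Dom (ρ : ℝ) : IsOpen (Dom ρ) :=
  isOpen_lt (continuous_nA.mul continuous_nZ) continuous_const

theorem norm_act' (l : ℂ) (q : Fin 5 → ℂ) (i : Fin 5) :
    ‖act' l q i‖ = ‖l‖ ^ wgt' i * ‖q i‖ := by
  simp [act', norm_zpow]

theorem norm_act (l : ℂ) (p : Fin 6 → ℂ) (i : Fin 6) :
    ‖act l p i‖ = ‖l‖ ^ wgt i * ‖p i‖ := by
  simp [act, norm_pow]

theorem rpow_pow_mul {n : ℕ} (hn : n ≠ 0) {a b : ℝ} (ha : 0 ≤ a) (hb : 0 ≤ b) :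
    (a ^ n * b) ^ (1 / (n : ℝ)) = a * b ^ (1 / (n : ℝ)) := by
  rw [Real.mul_rpow (pow_nonneg ha n) hb, one_div, Real.pow_rpow_inv_natCast ha hn]

theorem nZ_act' {l : ℂ} (q : Fin 5 → ℂ) : nZ (act' l q) = ‖l‖ * nZ q := by
  have h6 := rpow_pow_mul (n := 6) (by norm_num) (norm_nonneg l) (norm_nonneg (q 4))
  have e3 : ‖act' l q 3‖ = ‖l‖ * ‖q 3‖ := by
    rw [norm_act']; simp [wgt']
  have e4 : ‖act' l q 4‖ = ‖l‖ ^ 6 * ‖q 4‖ := by
    rw [norm_act']; congr 1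
  unfold nZ
  rw [e3, e4]
  push_cast at h6
  rw [h6, mul_max_of_nonneg _ _ (norm_nonneg l)]

theorem nP_act {l : ℂ} (p : Fin 6 → ℂ) : nP (act l p) = ‖l‖ * nP p := by
  have h6 := rpow_pow_mul (n := 6) (by norm_num) (norm_nonneg l) (norm_nonneg (p 2))
  have e3 : ‖act l p 0‖ = ‖l‖ * ‖p 0‖ := by
    rw [norm_act]; simp [wgt]
  have e4 : ‖act l p 2‖ = ‖l‖ ^ 6 * ‖p 2‖ := by
    rw [norm_act]; congr 1
  unfold nP
  rw [e3, e4]
  push_cast at h6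
  rw [h6, mul_max_of_nonneg _ _ (norm_nonneg l)]

theorem nA_act' {l : ℂ} (q : Fin 5 → ℂ) : nA (act' l q) = ‖l‖⁻¹ * nA q := by
  have h2 := rpow_pow_mul (n := 2) (by norm_num) (inv_nonneg.2 (norm_nonneg l))
    (norm_nonneg (q 1))
  have h3 := rpow_pow_mul (n := 3) (by norm_num) (inv_nonneg.2 (norm_nonneg l))
    (norm_nonneg (q 2))
  have e0 : ‖act' l q 0‖ = ‖l‖⁻¹ * ‖q 0‖ := by
    rw [norm_act']; simp [wgt']
  have e1 : ‖act' l q 1‖ = ‖l‖⁻¹ ^ 2 * ‖q 1‖ := by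
    rw [norm_act']; congr 1
    simp [wgt', zpow_neg]
  have e2 : ‖act' l q 2‖ = ‖l‖⁻¹ ^ 3 * ‖q 2‖ := by
    rw [norm_act']; congr 1
    simp [wgt', zpow_neg]
  unfold nA
  rw [e0, e1, e2]
  push_cast at h2 h3
  rw [h2, h3, mul_max_of_nonneg _ _ (inv_nonneg.2 (norm_nonneg l)),
    mul_max_of_nonneg _ _ (inv_nonneg.2 (norm_nonneg l))]

theorem nAZ_act' {l : ℂ} (hl : l ≠ 0) (q : Fin 5 → ℂ) :
    nA (act' l q) * nZ (act' l q) = nA q * nZ q := by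
  rw [nA_act', nZ_act']
  have : ‖l‖ ≠ 0 := norm_ne_zero_iff.2 hl
  field_simp

theorem act'_mem_Dom {l : ℂ} (hl : l ≠ 0) {ρ : ℝ} {q : Fin 5 → ℂ} :
    act' l q ∈ Dom ρ ↔ q ∈ Dom ρ := by
  show nA (act' l q) * nZ (act' l q) < ρ ↔ nA q * nZ q < ρ
  rw [nAZ_act' hl]

theorem act'_act' (l m : ℂ) (q : Fin 5 → ℂ) : act' l (act' m q) = act' (l * m) q := by
  ext i
  simp only [act']
  rw [mul_zpow]
  ring

theorem act_act (l m : ℂ) (p : Fin 6 → ℂ) : act l (act m p) = act (l * m) p := by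
  ext i
  simp only [act]
  rw [mul_pow]
  ring

theorem act'_one (q : Fin 5 → ℂ) : act' 1 q = q := by
  ext i; simp [act']

theorem act_one (p : Fin 6 → ℂ) : act 1 p = p := by
  ext i; simp [act]

/-- The scalar that normalises `q`. -/
theorem exists_scale {x : ℝ} (hx : 0 < x) : ∃ l : ℂ, l ≠ 0 ∧ ‖l‖ = x⁻¹ ∧ ‖l⁻¹‖ = x := by
  refine ⟨((x⁻¹ : ℝ) : ℂ), ?_, ?_, ?_⟩
  · simp [hx.ne']
  · rw [Complex.norm_real, Real.norm_of_nonneg (inv_nonneg.2 hx.le)]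
  · rw [norm_inv, Complex.norm_real, Real.norm_of_nonneg (inv_nonneg.2 hx.le), inv_inv]

theorem G_act (l : ℂ) (p : Fin 6 → ℂ) : G (act l p) = l ^ 66 * G p := by
  simp only [G, act, wgt]
  simp
  ring

theorem qOf_eta (q : Fin 5 → ℂ) : qOf ![q 0, q 1, q 2] (q 3, q 4) = q := by
  ext i; fin_cases i <;> rfl

theorem norm_lt_of_nA {q : Fin 5 → ℂ} {σ : ℝ} (h : nA q ≤ σ) (hσ : σ ≤ 1) :
    ‖q 0‖ ≤ σ ∧ ‖q 1‖ ≤ σ ∧ ‖q 2‖ ≤ σ := by
  have h0 : 0 ≤ σ := (nA_nonneg q).trans h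
  have ha : ‖q 0‖ ≤ σ := (le_max_left _ _).trans h
  have hb : ‖q 1‖ ^ (1 / 2 : ℝ) ≤ σ := ((le_max_left _ _).trans (le_max_right _ _)).trans h
  have hc : ‖q 2‖ ^ (1 / 3 : ℝ) ≤ σ := ((le_max_right _ _).trans (le_max_right _ _)).trans h
  refine ⟨ha, ?_, ?_⟩
  · have := pow_le_pow_left₀ (Real.rpow_nonneg (norm_nonneg _) _) hb 2
    have e : (‖q 1‖ ^ (1 / 2 : ℝ)) ^ 2 = ‖q 1‖ := by
      have := Real.rpow_inv_natCast_pow (norm_nonneg (q 1)) (n := 2) (by norm_num)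
      simpa using this
    rw [e] at this
    nlinarith
  · have := pow_le_pow_left₀ (Real.rpow_nonneg (norm_nonneg _) _) hc 3
    have e : (‖q 2‖ ^ (1 / 3 : ℝ)) ^ 3 = ‖q 2‖ := by
      have := Real.rpow_inv_natCast_pow (norm_nonneg (q 2)) (n := 3) (by norm_num)
      simpa using this
    rw [e] at this
    nlinarith [mul_nonneg h0 h0]

theorem nA_le_of_norm {q : Fin 5 → ℂ} {σ : ℝ} (hσ0 : 0 ≤ σ)
    (h0 : ‖q 0‖ ≤ σ) (h1 : ‖q 1‖ ≤ σ ^ 2) (h2 : ‖q 2‖ ≤ σ ^ 3) : nA q ≤ σ := by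
  refine max_le h0 (max_le ?_ ?_)
  · have := Real.rpow_le_rpow (norm_nonneg _) h1 (by norm_num : (0 : ℝ) ≤ 1 / 2)
    refine this.trans (le_of_eq ?_)
    have := Real.pow_rpow_inv_natCast hσ0 (n := 2) (by norm_num)
    simpa using this
  · have := Real.rpow_le_rpow (norm_nonneg _) h2 (by norm_num : (0 : ℝ) ≤ 1 / 3)
    refine this.trans (le_of_eq ?_)
    have := Real.pow_rpow_inv_natCast hσ0 (n := 3) (by norm_num)
    simpa using this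

theorem nZ_one {q : Fin 5 → ℂ} (h : nZ q = 1) :
    ‖q 3‖ ≤ 1 ∧ ‖q 4‖ ≤ 1 ∧ (‖q 3‖ = 1 ∨ ‖q 4‖ = 1) := by
  have ha : ‖q 3‖ ≤ 1 := (le_max_left _ _).trans h.le
  have hb : ‖q 4‖ ^ (1 / 6 : ℝ) ≤ 1 := (le_max_right _ _).trans h.le
  have e : (‖q 4‖ ^ (1 / 6 : ℝ)) ^ 6 = ‖q 4‖ := by
    have := Real.rpow_inv_natCast_pow (norm_nonneg (q 4)) (n := 6) (by norm_num)
    simpa using this
  refine ⟨ha, ?_, ?_⟩
  · rw [← e]
    exact pow_le_one₀ (Real.rpow_nonneg (norm_nonneg _) _) hb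
  · rcases max_choice ‖q 3‖ (‖q 4‖ ^ (1 / 6 : ℝ)) with hm | hm
    · left; rw [← hm]; exact h
    · right
      have h1 : ‖q 4‖ ^ (1 / 6 : ℝ) = 1 := by rw [← hm]; exact h
      rw [← e, h1, one_pow]

/-- The size of `(z, w)` at a point of the chart. -/
theorem nP_eq {Φ : (Fin 5 → ℂ) → (Fin 6 → ℂ)} (hz : ∀ q, Φ q 0 = q 3) (hw : ∀ q, Φ q 2 = q 4)
    (q : Fin 5 → ℂ) : nP (Φ q) = nZ q := by
  show max ‖Φ q 0‖ (‖Φ q 2‖ ^ (1 / 6 : ℝ)) = _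
  rw [hz, hw]
  rfl

theorem max_rpow_eq_zero {a b : ℂ} : max ‖a‖ (‖b‖ ^ (1 / 6 : ℝ)) = 0 ↔ a = 0 ∧ b = 0 := by
  constructor
  · intro h
    have h1 : ‖a‖ ≤ 0 := (le_max_left _ _).trans h.le
    have h2 : ‖b‖ ^ (1 / 6 : ℝ) ≤ 0 := (le_max_right _ _).trans h.le
    refine ⟨norm_le_zero_iff.1 h1, ?_⟩
    by_contra hb
    have := Real.rpow_pos_of_pos (norm_pos_iff.2 hb) (1 / 6 : ℝ)
    linarith
  · rintro ⟨rfl, rfl⟩
    simp

theorem nZ_ne {q : Fin 5 → ℂ} : (q 3 ≠ 0 ∨ q 4 ≠ 0) ↔ nZ q ≠ 0 := by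
  rw [Ne, Ne, Ne, nZ, max_rpow_eq_zero, not_and_or]

theorem nP_ne {p : Fin 6 → ℂ} : (p 0 ≠ 0 ∨ p 2 ≠ 0) ↔ nP p ≠ 0 := by
  rw [Ne, Ne, Ne, nP, max_rpow_eq_zero, not_and_or]

/-- Every point with `(z, w) ≠ 0` is equivalent to one of size one. -/
theorem exists_norm {q : Fin 5 → ℂ} (hq : q 3 ≠ 0 ∨ q 4 ≠ 0) :
    ∃ l : ℂ, l ≠ 0 ∧ nZ (act' l q) = 1 ∧ nA (act' l q) = nA q * nZ q := by
  have h0 : 0 < nZ q := lt_of_le_of_ne (nZ_nonneg q) (nZ_ne.1 hq).symm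
  obtain ⟨l, hl, h1, h2⟩ := exists_scale h0
  refine ⟨l, hl, ?_, ?_⟩
  · rw [nZ_act', h1, inv_mul_cancel₀ h0.ne']
  · rw [nA_act', h1, inv_inv, mul_comm]

theorem continuous_qOf : Continuous (fun x : (Fin 3 → ℂ) × (ℂ × ℂ) => qOf x.1 x.2) := by
  refine continuous_pi fun i => ?_
  fin_cases i
  · exact (show Continuous fun x : (Fin 3 → ℂ) × (ℂ × ℂ) => x.1 0 by fun_prop)
  · exact (show Continuous fun x : (Fin 3 → ℂ) × (ℂ × ℂ) => x.1 1 by fun_prop)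
  · exact (show Continuous fun x : (Fin 3 → ℂ) × (ℂ × ℂ) => x.1 2 by fun_prop)
  · exact continuous_fst.comp continuous_snd
  · exact continuous_snd.comp continuous_snd

theorem qOf_zero (z w : ℂ) : qOf 0 (z, w) = ![0, 0, 0, z, w] := rfl

theorem mem_sphere {q : Fin 5 → ℂ} (h : nZ q = 1) :
    (q 3, q 4) ∈ Metric.sphere (0 : ℂ × ℂ) 1 := by
  obtain ⟨h1, h2, h3⟩ := nZ_one h
  rw [mem_sphere_zero_iff_norm, Prod.norm_def]
  rcases h3 with h | h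
  · exact le_antisymm (max_le h1 h2) (h ▸ le_max_left _ _)
  · exact le_antisymm (max_le h1 h2) (h ▸ le_max_right _ _)

theorem sphere_ne {z w : ℂ} (h : (z, w) ∈ Metric.sphere (0 : ℂ × ℂ) 1) : z ≠ 0 ∨ w ≠ 0 := by
  by_contra hc
  push Not at hc
  rw [hc.1, hc.2, mem_sphere_zero_iff_norm] at h
  simp at h

theorem vec3_lt {q : Fin 5 → ℂ} {σ : ℝ} (h : nA q < σ) (hσ : σ ≤ 1) :
    ‖(![q 0, q 1, q 2] : Fin 3 → ℂ)‖ < σ := by
  obtain ⟨h0, h1, h2⟩ := norm_lt_of_nA le_rfl (h.le.trans hσ)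
  rw [pi_norm_lt_iff ((nA_nonneg q).trans_lt h)]
  intro i
  fin_cases i
  · exact h0.trans_lt h
  · exact h1.trans_lt h
  · exact h2.trans_lt h

theorem act'_inj {l : ℂ} (hl : l ≠ 0) {q q' : Fin 5 → ℂ} (h : act' l q = act' l q') : q = q' := by
  have := congrArg (act' l⁻¹) h
  rwa [act'_act', act'_act', inv_mul_cancel₀ hl, act'_one, act'_one] at this

theorem Dom_mono {r s : ℝ} (h : r ≤ s) : Dom r ⊆ Dom s := fun _ hq => lt_of_lt_of_le hq h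

end Pool.Agent.KO.Size
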