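import Mathlib
import Pool.Agent.KO.Base

/-!
# Project KO, block F: the flip chart

Unknown functions `c = c(a)`, `a = (A₁ z, A₂ z², A₃ z³)`. With `v = w / z⁶`,
`û = -a₁ v + a₂ + c₁₀`, `x̂ = v³ + (-a₂ v⁴ + a₃) / 3 + ∑_(j<4) c_(6+j) v^j`,
`ŷ = 1 - a₃ v⁶ / 2 + ∑_(j<6) c_j v^j` the polynomial
`ŷ² + x̂³ + û v¹⁰ + û¹² v - 1 - v⁹` has degree 13 in `v`; its coefficients of degree `< 11` are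
`2 (c_k + ..)`, `3 (c_k + ..)`, `c₁₀ + ..`, with `..` of order two: `eqs` are these equations.
-/

set_option autoImplicit false

namespace Pool.Agent.KO

open Set Filter Topology

/-- `a = (A₁ z, A₂ z², A₃ z³)`. -/
def sc (q : Fin 5 → ℂ) : Fin 3 → ℂ := ![q 0 * q 3, q 1 * q 3 ^ 2, q 2 * q 3 ^ 3]

/-- The coefficients of `ŷ - 1`. -/
noncomputable def etaF (a : Fin 3 → ℂ) (c : Fin 11 → ℂ) : Fin 7 → ℂ :=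
  ![c 0, c 1, c 2, c 3, c 4, c 5, -a 2 / 2]

/-- The coefficients of `x̂ - v³`. -/
noncomputable def xiF (a : Fin 3 → ℂ) (c : Fin 11 → ℂ) : Fin 5 → ℂ :=
  ![a 2 / 3 + c 6, c 7, c 8, c 9, -a 1 / 3]

/-- The terms of order at least two of the eleven equations. -/
noncomputable def remF (e : Fin 7 → ℂ) (x : Fin 5 → ℂ) (u r : ℂ) : Fin 11 → ℂ :=
  ![
    (e 0 ^ 2 + x 0 ^ 3) / 2,
    (2 * (e 0 * e 1) + 3 * (x 0 ^ 2 * x 1) + u ^ 12) / 2,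
    (2 * (e 0 * e 2) + e 1 ^ 2 + 3 * (x 0 ^ 2 * x 2) + 3 * (x 0 * x 1 ^ 2) + 12 * (u ^ 11 * r)) / 2,
    (2 * (e 0 * e 3) + 2 * (e 1 * e 2) + 3 * x 0 ^ 2 + 3 * (x 0 ^ 2 * x 3) + 6 * (x 0 * x 1 * x 2) + x 1 ^ 3 + 66 * (u ^ 10 * r ^ 2)) / 2,
    (2 * (e 0 * e 4) + 2 * (e 1 * e 3) + e 2 ^ 2 + 6 * (x 0 * x 1) + 3 * (x 0 ^ 2 * x 4) + 6 * (x 0 * x 1 * x 3) + 3 * (x 0 * x 2 ^ 2) + 3 * (x 1 ^ 2 * x 2) + 220 * (u ^ 9 * r ^ 3)) / 2,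
    (2 * (e 0 * e 5) + 2 * (e 1 * e 4) + 2 * (e 2 * e 3) + 6 * (x 0 * x 2) + 3 * x 1 ^ 2 + 6 * (x 0 * x 1 * x 4) + 6 * (x 0 * x 2 * x 3) + 3 * (x 1 ^ 2 * x 3) + 3 * (x 1 * x 2 ^ 2) + 495 * (u ^ 8 * r ^ 4)) / 2,
    (2 * (e 0 * e 6) + 2 * (e 1 * e 5) + 2 * (e 2 * e 4) + e 3 ^ 2 + 6 * (x 0 * x 3) + 6 * (x 1 * x 2) + 6 * (x 0 * x 2 * x 4) + 3 * (x 0 * x 3 ^ 2) + 3 * (x 1 ^ 2 * x 4) + 6 * (x 1 * x 2 * x 3) + x 2 ^ 3 + 792 * (u ^ 7 * r ^ 5)) / 3,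
    (2 * (e 1 * e 6) + 2 * (e 2 * e 5) + 2 * (e 3 * e 4) + 6 * (x 0 * x 4) + 6 * (x 1 * x 3) + 3 * x 2 ^ 2 + 6 * (x 0 * x 3 * x 4) + 6 * (x 1 * x 2 * x 4) + 3 * (x 1 * x 3 ^ 2) + 3 * (x 2 ^ 2 * x 3) + 924 * (u ^ 6 * r ^ 6)) / 3,
    (2 * (e 2 * e 6) + 2 * (e 3 * e 5) + e 4 ^ 2 + 6 * (x 1 * x 4) + 6 * (x 2 * x 3) + 3 * (x 0 * x 4 ^ 2) + 6 * (x 1 * x 3 * x 4) + 3 * (x 2 ^ 2 * x 4) + 3 * (x 2 * x 3 ^ 2) + 792 * (u ^ 5 * r ^ 7)) / 3,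
    (2 * (e 3 * e 6) + 2 * (e 4 * e 5) + 6 * (x 2 * x 4) + 3 * x 3 ^ 2 + 3 * (x 1 * x 4 ^ 2) + 6 * (x 2 * x 3 * x 4) + x 3 ^ 3 + 495 * (u ^ 4 * r ^ 8)) / 3,
    (2 * (e 4 * e 6) + e 5 ^ 2 + 6 * (x 3 * x 4) + 3 * (x 2 * x 4 ^ 2) + 3 * (x 3 ^ 2 * x 4) + 220 * (u ^ 3 * r ^ 9))]

/-- The eleven equations. -/
noncomputable def eqs (a : Fin 3 → ℂ) (c : Fin 11 → ℂ) : Fin 11 → ℂ := fun k =>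
  c k + remF (etaF a c) (xiF a c) (a 1 + c 10) (-a 0) k

/-- The function `U`, with parameters `c`. -/
def phiU (c : Fin 11 → ℂ) (q : Fin 5 → ℂ) : ℂ :=
  -q 0 * q 4 + q 1 * q 3 ^ 7 + q 3 ^ 5 * c 10

/-- The function `X`, with parameters `c`. -/
noncomputable def phiX (c : Fin 11 → ℂ) (q : Fin 5 → ℂ) : ℂ :=
  q 3 ^ 4 * q 4 ^ 3 + (-q 1 * q 4 ^ 4 + q 2 * q 3 ^ 25) / 3 + q 3 ^ 22 * c 6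
    + q 3 ^ 16 * c 7 * q 4 + q 3 ^ 10 * c 8 * q 4 ^ 2 + q 3 ^ 4 * c 9 * q 4 ^ 3

/-- The function `Y`, with parameters `c`. -/
noncomputable def phiY (c : Fin 11 → ℂ) (q : Fin 5 → ℂ) : ℂ :=
  q 3 ^ 33 - q 2 * q 4 ^ 6 / 2 + q 3 ^ 33 * c 0 + q 3 ^ 27 * c 1 * q 4
    + q 3 ^ 21 * c 2 * q 4 ^ 2 + q 3 ^ 15 * c 3 * q 4 ^ 3 + q 3 ^ 9 * c 4 * q 4 ^ 4
    + q 3 ^ 3 * c 5 * q 4 ^ 5

/-- The function `T`, with parameters `c`. -/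
noncomputable def phiT (c : Fin 11 → ℂ) (q : Fin 5 → ℂ) : ℂ :=
  q 0 * q 3 - (1 + c 9) * q 1 ^ 2 * q 3 ^ 4 / 3 + q 2 * q 3 ^ 3 * c 5
    - 66 * q 0 ^ 10 * (q 1 * q 3 ^ 7 + q 3 ^ 5 * c 10) ^ 2
    + q 4 * (q 1 ^ 3 / 27 - q 2 ^ 2 / 4 + 12 * q 0 ^ 11 * (q 1 * q 3 ^ 7 + q 3 ^ 5 * c 10))
    - q 0 ^ 12 * q 4 ^ 2

/-- The chart, with parameters `c`. -/
noncomputable def phiC (c : Fin 11 → ℂ) (q : Fin 5 → ℂ) : Fin 6 → ℂ :=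
  ![q 3, phiU c q, q 4, phiX c q, phiY c q, phiT c q]

/-- The chart, for the functions `c = c(a)`. -/
noncomputable def Phi (c : (Fin 3 → ℂ) → (Fin 11 → ℂ)) (q : Fin 5 → ℂ) : Fin 6 → ℂ :=
  phiC (c (sc q)) q

/-- `c` solves the eleven equations on the ball of radius `ε`. -/
structure IsSol (ε : ℝ) (c : (Fin 3 → ℂ) → (Fin 11 → ℂ)) : Prop where
  pos : 0 < ε
  an : AnalyticOnNhd ℂ c (Metric.ball 0 ε)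
  zero : c 0 = 0
  small : ∀ a ∈ Metric.ball (0 : Fin 3 → ℂ) ε, ‖c a‖ < 1
  eqs : ∀ a ∈ Metric.ball (0 : Fin 3 → ℂ) ε, eqs a (c a) = 0

end Pool.Agent.KO
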