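import Mathlib
import Pool.Agent.KO.F.Defs

/-! Row KO-F1: the eleven equations have an analytic solution `c(a)` near `a = 0`. -/

set_option autoImplicit false

namespace Pool.Agent.KO

open Set Filter Topology
open scoped ContDiff

namespace F1

variable {E : Type} [NormedAddCommGroup E] [NormedSpace ℂ E]

/-- Analytic, zero at `0`. -/
structure Z1 (f : E → ℂ) : Prop where
  c : ContDiff ℂ ω f
  z : f 0 = 0

/-- Analytic, zero of order two at `0`. -/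
structure Z2 (f : E → ℂ) : Prop where
  c : ContDiff ℂ ω f
  z : f 0 = 0
  d : HasFDerivAt f (0 : E →L[ℂ] ℂ) 0

theorem Z2.z1 {f : E → ℂ} (h : Z2 f) : Z1 f := ⟨h.c, h.z⟩

theorem Z1.mul {f g : E → ℂ} (hf : Z1 f) (hg : Z1 g) : Z2 (fun p => f p * g p) := by
  refine ⟨hf.c.mul hg.c, by simp [hf.z], ?_⟩
  have h1 : HasFDerivAt f (fderiv ℂ f 0) 0 :=
    ((hf.c.differentiable (by simp)) 0).hasFDerivAt
  have h2 : HasFDerivAt g (fderiv ℂ g 0) 0 :=
    ((hg.c.differentiable (by simp)) 0).hasFDerivAt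
  refine (h1.mul h2).congr_fderiv ?_
  ext x
  simp [hf.z, hg.z]

theorem Z2.add {f g : E → ℂ} (hf : Z2 f) (hg : Z2 g) : Z2 (fun p => f p + g p) := by
  refine ⟨hf.c.add hg.c, by simp [hf.z, hg.z], ?_⟩
  have h := hf.d.add hg.d
  rw [add_zero] at h
  exact h

theorem Z2.mul {f g : E → ℂ} (hf : Z2 f) (hg : Z1 g) : Z2 (fun p => f p * g p) :=
  hf.z1.mul hg

theorem Z2.cmul {f : E → ℂ} (r : ℂ) (hf : Z2 f) : Z2 (fun p => r * f p) := by
  refine ⟨contDiff_const.mul hf.c, by simp [hf.z], ?_⟩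
  refine (hf.d.const_mul r).congr_fderiv ?_
  ext x
  simp

theorem Z2.divc {f : E → ℂ} (r : ℂ) (hf : Z2 f) : Z2 (fun p => f p / r) := by
  have h := hf.cmul r⁻¹
  have he : (fun p => r⁻¹ * f p) = fun p => f p / r := by
    funext p; rw [div_eq_mul_inv, mul_comm]
  rwa [he] at h

theorem Z1.pow1 {f : E → ℂ} (hf : Z1 f) (n : ℕ) : Z1 (fun p => f p ^ (n + 1)) :=
  ⟨hf.c.pow _, by simp [hf.z]⟩

theorem Z1.pow2 {f : E → ℂ} (hf : Z1 f) (n : ℕ) : Z2 (fun p => f p ^ (n + 2)) := by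
  have h := (hf.pow1 n).mul hf
  have he : (fun p => f p ^ (n + 1) * f p) = fun p => f p ^ (n + 2) := by
    funext p; ring
  rwa [he] at h

/-- The second component of the map to be inverted. -/
noncomputable def H1 (p : (Fin 3 → ℂ) × (Fin 11 → ℂ)) : (Fin 3 → ℂ) × (Fin 11 → ℂ) :=
  (p.1, eqs p.1 p.2)

theorem rem_Z2 (k : Fin 11) : Z2 (fun p : (Fin 3 → ℂ) × (Fin 11 → ℂ) =>
    remF (etaF p.1 p.2) (xiF p.1 p.2) (p.1 1 + p.2 10) (-p.1 0) k) := by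
  have he : ∀ i, Z1 (fun p : (Fin 3 → ℂ) × (Fin 11 → ℂ) => etaF p.1 p.2 i) := by
    intro i
    constructor
    · fin_cases i <;> simp [etaF] <;> fun_prop
    · fin_cases i <;> simp [etaF]
  have hx : ∀ i, Z1 (fun p : (Fin 3 → ℂ) × (Fin 11 → ℂ) => xiF p.1 p.2 i) := by
    intro i
    constructor
    · fin_cases i <;> simp [xiF] <;> fun_prop
    · fin_cases i <;> simp [xiF]
  have hu : Z1 (fun p : (Fin 3 → ℂ) × (Fin 11 → ℂ) => p.1 1 + p.2 10) := by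
    constructor
    · fun_prop
    · simp
  have hr : Z1 (fun p : (Fin 3 → ℂ) × (Fin 11 → ℂ) => -p.1 0) := by
    constructor
    · fun_prop
    · simp
  fin_cases k <;> simp only [remF, Fin.isValue] <;>
    repeat' first
      | exact he _
      | exact hx _
      | exact hu
      | exact hr
      | apply Z2.divc
      | apply Z2.add
      | apply Z2.cmul
      | apply Z1.pow2
      | apply Z1.mul
      | apply Z2.z1

theorem H1_contDiff : ContDiff ℂ ω H1 := by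
  unfold H1
  refine contDiff_fst.prodMk ?_
  rw [contDiff_pi]
  intro k
  unfold eqs
  exact ContDiff.add (by fun_prop) (rem_Z2 k).c

theorem H1_deriv : HasFDerivAt H1
    ((ContinuousLinearEquiv.refl ℂ ((Fin 3 → ℂ) × (Fin 11 → ℂ)) :
      ((Fin 3 → ℂ) × (Fin 11 → ℂ)) →L[ℂ] ((Fin 3 → ℂ) × (Fin 11 → ℂ)))) 0 := by
  have h2 : HasFDerivAt (fun p : (Fin 3 → ℂ) × (Fin 11 → ℂ) => eqs p.1 p.2)
      (ContinuousLinearMap.snd ℂ (Fin 3 → ℂ) (Fin 11 → ℂ)) 0 := by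
    rw [hasFDerivAt_pi']
    intro k
    have h3 : HasFDerivAt (fun p : (Fin 3 → ℂ) × (Fin 11 → ℂ) => p.2 k)
        ((ContinuousLinearMap.proj k).comp (ContinuousLinearMap.snd ℂ (Fin 3 → ℂ) (Fin 11 → ℂ)))
        0 :=
      ((ContinuousLinearMap.proj (R := ℂ) (φ := fun _ : Fin 11 => ℂ) k).comp
        (ContinuousLinearMap.snd ℂ (Fin 3 → ℂ) (Fin 11 → ℂ))).hasFDerivAt
    have h4 := h3.add (rem_Z2 k).d
    rw [add_zero] at h4
    exact h4
  have h1 : HasFDerivAt (fun p : (Fin 3 → ℂ) × (Fin 11 → ℂ) => p.1)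
      (ContinuousLinearMap.fst ℂ (Fin 3 → ℂ) (Fin 11 → ℂ)) 0 := hasFDerivAt_fst
  have h := h1.prodMk h2
  have he : (ContinuousLinearMap.fst ℂ (Fin 3 → ℂ) (Fin 11 → ℂ)).prod
      (ContinuousLinearMap.snd ℂ (Fin 3 → ℂ) (Fin 11 → ℂ)) =
      ((ContinuousLinearEquiv.refl ℂ ((Fin 3 → ℂ) × (Fin 11 → ℂ)) :
      ((Fin 3 → ℂ) × (Fin 11 → ℂ)) →L[ℂ] ((Fin 3 → ℂ) × (Fin 11 → ℂ)))) := by
    ext x <;> simp
  rw [he] at h
  exact h

theorem H1_zero : H1 0 = 0 := by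
  have : eqs (0 : Fin 3 → ℂ) (0 : Fin 11 → ℂ) = 0 := by
    funext k
    have h := (rem_Z2 k).z
    have h2 : eqs (0 : Fin 3 → ℂ) (0 : Fin 11 → ℂ) k = 0 + remF (etaF 0 0) (xiF 0 0)
      ((0 : (Fin 3 → ℂ) × (Fin 11 → ℂ)).1 1 + (0 : (Fin 3 → ℂ) × (Fin 11 → ℂ)).2 10)
      (-(0 : (Fin 3 → ℂ) × (Fin 11 → ℂ)).1 0) k := rfl
    rw [h2, zero_add]
    exact h
  show ((0 : Fin 3 → ℂ), eqs (0 : Fin 3 → ℂ) (0 : Fin 11 → ℂ)) = 0
  rw [this]; rfl

end F1

open F1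

theorem exists_isSol : ∃ (ε : ℝ) (c : (Fin 3 → ℂ) → (Fin 11 → ℂ)), IsSol ε c := by
  have hcd : ContDiffAt ℂ ω H1 0 := H1_contDiff.contDiffAt
  have hn : (ω : WithTop ℕ∞) ≠ 0 := by simp
  set g := hcd.localInverse H1_deriv hn with hg
  have hgc : ContDiffAt ℂ ω g 0 := by
    have := hcd.to_localInverse H1_deriv hn
    rwa [H1_zero] at this
  have hg0 : g 0 = 0 := by
    have := hcd.localInverse_apply_image H1_deriv hn
    rwa [H1_zero] at this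
  have hright : ∀ᶠ y in 𝓝 (0 : (Fin 3 → ℂ) × (Fin 11 → ℂ)), H1 (g y) = y := by
    have := (hcd.hasStrictFDerivAt' H1_deriv hn).eventually_right_inverse
    rwa [H1_zero] at this
  let inc : (Fin 3 → ℂ) → (Fin 3 → ℂ) × (Fin 11 → ℂ) := fun a => (a, 0)
  have hinc : ContDiff ℂ ω inc := by
    unfold inc; fun_prop
  have hinc0 : inc 0 = 0 := rfl
  let c : (Fin 3 → ℂ) → (Fin 11 → ℂ) := fun a => (g (inc a)).2
  have hc0 : c 0 = 0 := by
    show (g (inc 0)).2 = 0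
    rw [hinc0, hg0]; rfl
  have hcc : ContDiffAt ℂ ω c 0 := by
    have h1 : ContDiffAt ℂ ω (fun a => g (inc a)) 0 := by
      apply ContDiffAt.comp (g := g) (f := inc) 0
      · rw [hinc0]; exact hgc
      · exact hinc.contDiffAt
    exact contDiffAt_snd.comp (0 : Fin 3 → ℂ) h1
  have han : ∀ᶠ a in 𝓝 (0 : Fin 3 → ℂ), AnalyticAt ℂ c a :=
    hcc.analyticAt.eventually_analyticAt
  have hsm : ∀ᶠ a in 𝓝 (0 : Fin 3 → ℂ), ‖c a‖ < 1 := by
    have h1 : Tendsto (fun a => ‖c a‖) (𝓝 0) (𝓝 ‖c 0‖) := hcc.continuousAt.norm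
    rw [hc0, norm_zero] at h1
    exact h1.eventually (gt_mem_nhds one_pos)
  have heq : ∀ᶠ a in 𝓝 (0 : Fin 3 → ℂ), eqs a (c a) = 0 := by
    have h1 : Tendsto inc (𝓝 0) (𝓝 (0 : (Fin 3 → ℂ) × (Fin 11 → ℂ))) := by
      have := hinc.continuous.tendsto 0
      rwa [hinc0] at this
    filter_upwards [h1.eventually hright] with a ha
    have h2 : (g (inc a)).1 = a := congrArg Prod.fst ha
    have h3 : eqs (g (inc a)).1 (g (inc a)).2 = 0 := congrArg Prod.snd ha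
    rw [h2] at h3
    exact h3
  obtain ⟨ε, hε, hb⟩ := Metric.eventually_nhds_iff_ball.1 (han.and (hsm.and heq))
  exact ⟨ε, c, hε, fun a ha => (hb a ha).1, hc0, fun a ha => (hb a ha).2.1,
    fun a ha => (hb a ha).2.2⟩

end Pool.Agent.KO
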