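import Pool.Agent.KO.F.Defs

/-!
# Project KO, block F: the chart satisfies the equation `G = 0`
-/

set_option autoImplicit false

namespace Pool.Agent.KO

open Set Filter Topology

/-- The expansion of `G` in powers of `w`. -/
theorem G_expand (z w A u e6 x4 : ℂ) (e : Fin 7 → ℂ) (x : Fin 5 → ℂ) (he : e 6 = z ^ 3 * e6)
    (hx : x 4 = z ^ 2 * x4) :
    (z ^ 33 * (1 + e 0) + z ^ 27 * e 1 * w + z ^ 21 * e 2 * w ^ 2 + z ^ 15 * e 3 * w ^ 3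
        + z ^ 9 * e 4 * w ^ 4 + z ^ 3 * e 5 * w ^ 5 + e6 * w ^ 6) ^ 2
      + (z ^ 22 * x 0 + z ^ 16 * x 1 * w + z ^ 10 * x 2 * w ^ 2 + z ^ 4 * (1 + x 3) * w ^ 3
        + x4 * w ^ 4) ^ 3
      + (A * z - 3 * (1 + x 3) * x4 ^ 2 * z ^ 4 - 2 * e6 * e 5 * z ^ 3
        - 66 * A ^ 10 * (z ^ 5 * u) ^ 2 + w * (-x4 ^ 3 - e6 ^ 2 + 12 * A ^ 11 * (z ^ 5 * u))
        - A ^ 12 * w ^ 2) * w ^ 11
      + (-A * w + z ^ 5 * u) * z * w ^ 10 + (-A * w + z ^ 5 * u) ^ 12 * w - z ^ 66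
      - z ^ 12 * w ^ 9
    = z ^ 66 * (2 * (e 0 + remF e x u (-(A * z)) 0))
      + z ^ 60 * w * (2 * (e 1 + remF e x u (-(A * z)) 1))
      + z ^ 54 * w ^ 2 * (2 * (e 2 + remF e x u (-(A * z)) 2))
      + z ^ 48 * w ^ 3 * (2 * (e 3 + remF e x u (-(A * z)) 3))
      + z ^ 42 * w ^ 4 * (2 * (e 4 + remF e x u (-(A * z)) 4))
      + z ^ 36 * w ^ 5 * (2 * (e 5 + remF e x u (-(A * z)) 5))
      + z ^ 30 * w ^ 6 * (2 * e 6 + 3 * x 0 + 3 * remF e x u (-(A * z)) 6)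
      + z ^ 24 * w ^ 7 * (3 * (x 1 + remF e x u (-(A * z)) 7))
      + z ^ 18 * w ^ 8 * (3 * (x 2 + remF e x u (-(A * z)) 8))
      + z ^ 12 * w ^ 9 * (3 * (x 3 + remF e x u (-(A * z)) 9))
      + z ^ 6 * w ^ 10 * (3 * x 4 + u + remF e x u (-(A * z)) 10) := by
  have r0 : remF e x u (-(A * z)) 0 =
      (e 0 ^ 2 + x 0 ^ 3) / 2 := rfl
  have r1 : remF e x u (-(A * z)) 1 =
      (2 * (e 0 * e 1) + 3 * (x 0 ^ 2 * x 1) + u ^ 12) / 2 := rfl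
  have r2 : remF e x u (-(A * z)) 2 =
      (2 * (e 0 * e 2) + e 1 ^ 2 + 3 * (x 0 ^ 2 * x 2) + 3 * (x 0 * x 1 ^ 2) + 12 * (u ^ 11 * (-(A * z)))) / 2 := rfl
  have r3 : remF e x u (-(A * z)) 3 =
      (2 * (e 0 * e 3) + 2 * (e 1 * e 2) + 3 * x 0 ^ 2 + 3 * (x 0 ^ 2 * x 3) + 6 * (x 0 * x 1 * x 2) + x 1 ^ 3 + 66 * (u ^ 10 * (-(A * z)) ^ 2)) / 2 := rfl
  have r4 : remF e x u (-(A * z)) 4 =
      (2 * (e 0 * e 4) + 2 * (e 1 * e 3) + e 2 ^ 2 + 6 * (x 0 * x 1) + 3 * (x 0 ^ 2 * x 4) + 6 * (x 0 * x 1 * x 3) + 3 * (x 0 * x 2 ^ 2) + 3 * (x 1 ^ 2 * x 2) + 220 * (u ^ 9 * (-(A * z)) ^ 3)) / 2 := rfl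
  have r5 : remF e x u (-(A * z)) 5 =
      (2 * (e 0 * e 5) + 2 * (e 1 * e 4) + 2 * (e 2 * e 3) + 6 * (x 0 * x 2) + 3 * x 1 ^ 2 + 6 * (x 0 * x 1 * x 4) + 6 * (x 0 * x 2 * x 3) + 3 * (x 1 ^ 2 * x 3) + 3 * (x 1 * x 2 ^ 2) + 495 * (u ^ 8 * (-(A * z)) ^ 4)) / 2 := rfl
  have r6 : remF e x u (-(A * z)) 6 =
      (2 * (e 0 * e 6) + 2 * (e 1 * e 5) + 2 * (e 2 * e 4) + e 3 ^ 2 + 6 * (x 0 * x 3) + 6 * (x 1 * x 2) + 6 * (x 0 * x 2 * x 4) + 3 * (x 0 * x 3 ^ 2) + 3 * (x 1 ^ 2 * x 4) + 6 * (x 1 * x 2 * x 3) + x 2 ^ 3 + 792 * (u ^ 7 * (-(A * z)) ^ 5)) / 3 := rfl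
  have r7 : remF e x u (-(A * z)) 7 =
      (2 * (e 1 * e 6) + 2 * (e 2 * e 5) + 2 * (e 3 * e 4) + 6 * (x 0 * x 4) + 6 * (x 1 * x 3) + 3 * x 2 ^ 2 + 6 * (x 0 * x 3 * x 4) + 6 * (x 1 * x 2 * x 4) + 3 * (x 1 * x 3 ^ 2) + 3 * (x 2 ^ 2 * x 3) + 924 * (u ^ 6 * (-(A * z)) ^ 6)) / 3 := rfl
  have r8 : remF e x u (-(A * z)) 8 =
      (2 * (e 2 * e 6) + 2 * (e 3 * e 5) + e 4 ^ 2 + 6 * (x 1 * x 4) + 6 * (x 2 * x 3) + 3 * (x 0 * x 4 ^ 2) + 6 * (x 1 * x 3 * x 4) + 3 * (x 2 ^ 2 * x 4) + 3 * (x 2 * x 3 ^ 2) + 792 * (u ^ 5 * (-(A * z)) ^ 7)) / 3 := rfl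
  have r9 : remF e x u (-(A * z)) 9 =
      (2 * (e 3 * e 6) + 2 * (e 4 * e 5) + 6 * (x 2 * x 4) + 3 * x 3 ^ 2 + 3 * (x 1 * x 4 ^ 2) + 6 * (x 2 * x 3 * x 4) + x 3 ^ 3 + 495 * (u ^ 4 * (-(A * z)) ^ 8)) / 3 := rfl
  have r10 : remF e x u (-(A * z)) 10 =
      (2 * (e 4 * e 6) + e 5 ^ 2 + 6 * (x 3 * x 4) + 3 * (x 2 * x 4 ^ 2) + 3 * (x 3 ^ 2 * x 4) + 220 * (u ^ 3 * (-(A * z)) ^ 9)) := rfl
  rw [r0, r1, r2, r3, r4, r5, r6, r7, r8, r9, r10, he, hx]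
  ring

/-- The chart with parameters `c` satisfies `G = 0` if `c` solves the eleven equations. -/
theorem G_phiC (c : Fin 11 → ℂ) (q : Fin 5 → ℂ) (h : eqs (sc q) c = 0) : G (phiC c q) = 0 := by
  have key := G_expand (q 3) (q 4) (q 0) (sc q 1 + c 10) (-q 2 / 2) (-q 1 / 3)
    (etaF (sc q) c) (xiF (sc q) c)
    (by show -(q 2 * q 3 ^ 3) / 2 = _; ring) (by show -(q 1 * q 3 ^ 2) / 3 = _; ring)
  have ha : -(q 0 * q 3) = -sc q 0 := rfl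
  rw [ha] at key
  have hk : ∀ k, c k + remF (etaF (sc q) c) (xiF (sc q) c) (sc q 1 + c 10) (-sc q 0) k = 0 :=
    fun k => congrFun h k
  have e0 : etaF (sc q) c 0 = c 0 := rfl
  have e1 : etaF (sc q) c 1 = c 1 := rfl
  have e2 : etaF (sc q) c 2 = c 2 := rfl
  have e3 : etaF (sc q) c 3 = c 3 := rfl
  have e4 : etaF (sc q) c 4 = c 4 := rfl
  have e5 : etaF (sc q) c 5 = c 5 := rfl
  have e6 : etaF (sc q) c 6 = -(q 2 * q 3 ^ 3) / 2 := rfl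
  have x0 : xiF (sc q) c 0 = q 2 * q 3 ^ 3 / 3 + c 6 := rfl
  have x1 : xiF (sc q) c 1 = c 7 := rfl
  have x2 : xiF (sc q) c 2 = c 8 := rfl
  have x3 : xiF (sc q) c 3 = c 9 := rfl
  have x4 : xiF (sc q) c 4 = -(q 1 * q 3 ^ 2) / 3 := rfl
  have a1 : sc q 1 = q 1 * q 3 ^ 2 := rfl
  rw [e0, e1, e2, e3, e4, e5, e6, x0, x1, x2, x3, x4] at key
  have f : ∀ k, remF (etaF (sc q) c) (xiF (sc q) c) (sc q 1 + c 10) (-sc q 0) k = -c k :=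
    fun k => by linear_combination hk k
  simp only [f] at key
  simp only [a1] at key
  have hU : phiU c q = -q 0 * q 4 + q 3 ^ 5 * (q 1 * q 3 ^ 2 + c 10) := by
    unfold phiU; ring
  have hX : phiX c q = q 3 ^ 22 * (q 2 * q 3 ^ 3 / 3 + c 6) + q 3 ^ 16 * c 7 * q 4
      + q 3 ^ 10 * c 8 * q 4 ^ 2 + q 3 ^ 4 * (1 + c 9) * q 4 ^ 3 + (-q 1 / 3) * q 4 ^ 4 := by
    unfold phiX; ring
  have hY : phiY c q = q 3 ^ 33 * (1 + c 0) + q 3 ^ 27 * c 1 * q 4 + q 3 ^ 21 * c 2 * q 4 ^ 2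
      + q 3 ^ 15 * c 3 * q 4 ^ 3 + q 3 ^ 9 * c 4 * q 4 ^ 4 + q 3 ^ 3 * c 5 * q 4 ^ 5
      + (-q 2 / 2) * q 4 ^ 6 := by
    unfold phiY; ring
  have hT : phiT c q = q 0 * q 3 - 3 * (1 + c 9) * (-q 1 / 3) ^ 2 * q 3 ^ 4
      - 2 * (-q 2 / 2) * c 5 * q 3 ^ 3
      - 66 * q 0 ^ 10 * (q 3 ^ 5 * (q 1 * q 3 ^ 2 + c 10)) ^ 2
      + q 4 * (-(-q 1 / 3) ^ 3 - (-q 2 / 2) ^ 2
        + 12 * q 0 ^ 11 * (q 3 ^ 5 * (q 1 * q 3 ^ 2 + c 10)))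
      - q 0 ^ 12 * q 4 ^ 2 := by
    unfold phiT; ring
  have hG : G (phiC c q) = phiY c q ^ 2 + phiX c q ^ 3 + phiT c q * q 4 ^ 11
      + phiU c q * q 3 * q 4 ^ 10 + phiU c q ^ 12 * q 4 - q 3 ^ 66 - q 3 ^ 12 * q 4 ^ 9 := rfl
  rw [hG, hU, hX, hY, hT, key]
  ring

theorem G_Phi {ε : ℝ} {c : (Fin 3 → ℂ) → (Fin 11 → ℂ)} (h : IsSol ε c) {q : Fin 5 → ℂ}
    (hq : sc q ∈ Metric.ball (0 : Fin 3 → ℂ) ε) : G (Phi c q) = 0 :=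
  G_phiC _ q (h.eqs _ hq)

end Pool.Agent.KO
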