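import Pool.Agent.KO.F.Defs

/-!
# Project KO, block F: weights, values and the derivative of `T`
-/

set_option autoImplicit false

namespace Pool.Agent.KO

open Set Filter Topology

theorem act'_zero (l : ℂ) (q : Fin 5 → ℂ) : act' l q 0 = l⁻¹ * q 0 := by
  simp [act', wgt', zpow_neg]

theorem act'_at_one (l : ℂ) (q : Fin 5 → ℂ) : act' l q 1 = (l⁻¹) ^ 2 * q 1 := by
  have : act' l q 1 = l ^ (-2 : ℤ) * q 1 := rfl
  rw [this, zpow_neg, ← inv_zpow]
  norm_cast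

theorem act'_two (l : ℂ) (q : Fin 5 → ℂ) : act' l q 2 = (l⁻¹) ^ 3 * q 2 := by
  have : act' l q 2 = l ^ (-3 : ℤ) * q 2 := rfl
  rw [this, zpow_neg, ← inv_zpow]
  norm_cast

theorem act'_three (l : ℂ) (q : Fin 5 → ℂ) : act' l q 3 = l * q 3 := by
  simp [act', wgt']

theorem act'_four (l : ℂ) (q : Fin 5 → ℂ) : act' l q 4 = l ^ 6 * q 4 := by
  have : act' l q 4 = l ^ (6 : ℤ) * q 4 := rfl
  rw [this]
  norm_cast

theorem sc_act' (l : ℂ) (hl : l ≠ 0) (q : Fin 5 → ℂ) : sc (act' l q) = sc q := by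
  ext i
  fin_cases i
  · show act' l q 0 * act' l q 3 = q 0 * q 3
    rw [act'_zero, act'_three]
    field_simp
  · show act' l q 1 * act' l q 3 ^ 2 = q 1 * q 3 ^ 2
    rw [act'_at_one, act'_three]
    field_simp
  · show act' l q 2 * act' l q 3 ^ 3 = q 2 * q 3 ^ 3
    rw [act'_two, act'_three]
    field_simp

theorem Phi_act {c : (Fin 3 → ℂ) → (Fin 11 → ℂ)} (l : ℂ) (hl : l ≠ 0) (q : Fin 5 → ℂ) :
    Phi c (act' l q) = act l (Phi c q) := by
  unfold Phi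
  rw [sc_act' l hl]
  generalize c (sc q) = d
  have e0 := act'_zero l q
  have e1 := act'_at_one l q
  have e2 := act'_two l q
  have e3 := act'_three l q
  have e4 := act'_four l q
  ext i
  fin_cases i
  · show act' l q 3 = l ^ 1 * q 3
    rw [e3, pow_one]
  · show phiU d (act' l q) = l ^ 5 * phiU d q
    unfold phiU
    rw [e0, e1, e3, e4]
    field_simp
  · show act' l q 4 = l ^ 6 * q 4
    rw [e4]
  · show phiX d (act' l q) = l ^ 22 * phiX d q
    unfold phiX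
    rw [e1, e2, e3, e4]
    field_simp
  · show phiY d (act' l q) = l ^ 33 * phiY d q
    unfold phiY
    rw [e2, e3, e4]
    field_simp
  · show phiT d (act' l q) = l ^ 0 * phiT d q
    unfold phiT
    rw [e0, e1, e2, e3, e4]
    field_simp

theorem sc_zero_of_A {q : Fin 5 → ℂ} (h0 : q 0 = 0) (h1 : q 1 = 0) (h2 : q 2 = 0) :
    sc q = 0 := by
  ext i
  fin_cases i
  · show q 0 * q 3 = 0
    rw [h0, zero_mul]
  · show q 1 * q 3 ^ 2 = 0
    rw [h1, zero_mul]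
  · show q 2 * q 3 ^ 3 = 0
    rw [h2, zero_mul]

theorem sc_zero_of_z {q : Fin 5 → ℂ} (h3 : q 3 = 0) : sc q = 0 := by
  ext i
  fin_cases i
  · show q 0 * q 3 = 0
    rw [h3, mul_zero]
  · show q 1 * q 3 ^ 2 = 0
    rw [h3]; ring
  · show q 2 * q 3 ^ 3 = 0
    rw [h3]; ring

theorem Phi_A0 {ε : ℝ} {c : (Fin 3 → ℂ) → (Fin 11 → ℂ)} (h : IsSol ε c) {q : Fin 5 → ℂ}
    (h0 : q 0 = 0) (h1 : q 1 = 0) (h2 : q 2 = 0) :
    Phi c q = ![q 3, 0, q 4, q 3 ^ 4 * q 4 ^ 3, q 3 ^ 33, 0] := by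
  unfold Phi
  rw [sc_zero_of_A h0 h1 h2, h.zero]
  ext i
  fin_cases i
  · rfl
  · show phiU 0 q = 0
    simp [phiU, h0, h1]
  · rfl
  · show phiX 0 q = q 3 ^ 4 * q 4 ^ 3
    simp [phiX, h1, h2]
  · show phiY 0 q = q 3 ^ 33
    simp [phiY, h2]
  · show phiT 0 q = 0
    simp [phiT, h0, h1, h2]

theorem Phi_z0 {ε : ℝ} {c : (Fin 3 → ℂ) → (Fin 11 → ℂ)} (h : IsSol ε c) {q : Fin 5 → ℂ}
    (h3 : q 3 = 0) : Phi c q 1 = -q 0 * q 4 ∧ Phi c q 3 = -q 1 * q 4 ^ 4 / 3 ∧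
    Phi c q 4 = -q 2 * q 4 ^ 6 / 2 ∧
    Phi c q 5 = (q 1 ^ 3 / 27 - q 2 ^ 2 / 4) * q 4 - q 0 ^ 12 * q 4 ^ 2 := by
  unfold Phi
  rw [sc_zero_of_z h3, h.zero]
  refine ⟨?_, ?_, ?_, ?_⟩
  · show phiU 0 q = _
    simp [phiU, h3]
  · show phiX 0 q = _
    simp [phiX, h3]
  · show phiY 0 q = _
    simp only [phiY, h3, Pi.zero_apply]
    ring
  · show phiT 0 q = _
    simp only [phiT, h3, Pi.zero_apply]
    ring

theorem coord_analyticAt (j : Fin 5) (q : Fin 5 → ℂ) :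
    AnalyticAt ℂ (fun q : Fin 5 → ℂ => q j) q :=
  (ContinuousLinearMap.proj (R := ℂ) (φ := fun _ : Fin 5 => ℂ) j).analyticAt q

theorem sc_analyticAt (q : Fin 5 → ℂ) : AnalyticAt ℂ sc q := by
  rw [analyticAt_pi_iff]
  intro i
  have p0 := coord_analyticAt 0 q
  have p1 := coord_analyticAt 1 q
  have p2 := coord_analyticAt 2 q
  have p3 := coord_analyticAt 3 q
  fin_cases i
  · exact p0.mul p3
  · exact p1.mul (p3.pow 2)
  · exact p2.mul (p3.pow 3)

/-- The functions of the chart are analytic functions of their arguments. -/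
theorem phi_analyticAt {E : Type*} [NormedAddCommGroup E] [NormedSpace ℂ E] {x : E}
    {f : Fin 5 → E → ℂ} {g : Fin 11 → E → ℂ} (hf : ∀ j, AnalyticAt ℂ (f j) x)
    (hg : ∀ k, AnalyticAt ℂ (g k) x) (i : Fin 6) :
    AnalyticAt ℂ (fun x => phiC (fun k => g k x) (fun j => f j x) i) x := by
  have p0 := hf 0
  have p1 := hf 1
  have p2 := hf 2
  have p3 := hf 3
  have p4 := hf 4
  have h0 := hg 0
  have h1 := hg 1
  have h2 := hg 2
  have h3 := hg 3
  have h4 := hg 4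
  have h5 := hg 5
  have h6 := hg 6
  have h7 := hg 7
  have h8 := hg 8
  have h9 := hg 9
  have h10 := hg 10
  fin_cases i
  · exact p3
  · show AnalyticAt ℂ (fun x => phiU (fun k => g k x) (fun j => f j x)) x
    unfold phiU
    fun_prop
  · exact p4
  · show AnalyticAt ℂ (fun x => phiX (fun k => g k x) (fun j => f j x)) x
    unfold phiX
    fun_prop
  · show AnalyticAt ℂ (fun x => phiY (fun k => g k x) (fun j => f j x)) x
    unfold phiY
    fun_prop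
  · show AnalyticAt ℂ (fun x => phiT (fun k => g k x) (fun j => f j x)) x
    unfold phiT
    fun_prop

theorem csc_analyticAt {ε : ℝ} {c : (Fin 3 → ℂ) → (Fin 11 → ℂ)} (h : IsSol ε c) {q : Fin 5 → ℂ}
    (hq : sc q ∈ Metric.ball (0 : Fin 3 → ℂ) ε) (k : Fin 11) :
    AnalyticAt ℂ (fun q => c (sc q) k) q := by
  have h1 : AnalyticAt ℂ (fun q => c (sc q)) q := (h.an _ hq).comp (sc_analyticAt q)
  exact (analyticAt_pi_iff.1 h1) k

theorem Phi_analyticAt {ε : ℝ} {c : (Fin 3 → ℂ) → (Fin 11 → ℂ)} (h : IsSol ε c) {q : Fin 5 → ℂ}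
    (hq : sc q ∈ Metric.ball (0 : Fin 3 → ℂ) ε) (i : Fin 6) :
    AnalyticAt ℂ (fun q => Phi c q i) q :=
  phi_analyticAt (E := Fin 5 → ℂ) (x := q) (f := fun (j : Fin 5) (q : Fin 5 → ℂ) => q j)
    (g := fun k q => c (sc q) k) (fun j => coord_analyticAt j q)
    (fun k => csc_analyticAt h hq k) i

theorem Phi_dT {ε : ℝ} {c : (Fin 3 → ℂ) → (Fin 11 → ℂ)} (h : IsSol ε c) (q : Fin 5 → ℂ)
    (h3 : q 3 = 0) (h4 : q 4 = 0) : HasFDerivAt (fun q => Phi c q 5)
    (q 0 • ContinuousLinearMap.proj (R := ℂ) (φ := fun _ : Fin 5 => ℂ) 3 +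
      (q 1 ^ 3 / 27 - q 2 ^ 2 / 4) •
        ContinuousLinearMap.proj (R := ℂ) (φ := fun _ : Fin 5 => ℂ) 4) q := by
  have hq : sc q ∈ Metric.ball (0 : Fin 3 → ℂ) ε := by
    rw [sc_zero_of_z h3]
    exact Metric.mem_ball_self h.pos
  have hc := csc_analyticAt h hq
  have k5 := (hc 5).differentiableAt.hasFDerivAt
  have k9 := (hc 9).differentiableAt.hasFDerivAt
  have k10 := (hc 10).differentiableAt.hasFDerivAt
  have p : ∀ j : Fin 5, HasFDerivAt (fun q : Fin 5 → ℂ => q j)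
      (ContinuousLinearMap.proj (R := ℂ) (φ := fun _ : Fin 5 => ℂ) j) q :=
    fun j => hasFDerivAt_apply j q
  have u := (((p 1).mul ((p 3).pow 7))).add (((p 3).pow 5).mul k10)
  have key := (((((p 0).mul (p 3)).sub ((((k9.const_add 1).mul ((p 1).pow 2)).mul
    ((p 3).pow 4)).mul_const 3⁻¹)).add (((p 2).mul ((p 3).pow 3)).mul k5)).sub
    ((((p 0).pow 10).const_mul 66).mul (u.pow 2))).add ((p 4).mul
    (((((p 1).pow 3).mul_const 27⁻¹).sub (((p 2).pow 2).mul_const 4⁻¹)).add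
      ((((p 0).pow 11).const_mul 12).mul u)))
  have key2 := key.sub (((p 0).pow 12).mul ((p 4).pow 2))
  have hT : (fun q => Phi c q 5) = fun q => phiT (c (sc q)) q := rfl
  rw [hT]
  refine (key2.congr_of_eventuallyEq ?_).congr_fderiv ?_
  · refine Eventually.of_forall fun q => ?_
    simp only [phiT, Pi.add_apply, Pi.sub_apply, Pi.mul_apply]
    ring
  · ext v
    simp [h3, h4]
    left
    ring

end Pool.Agent.KO
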