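import Pool.Agent.KO.F.Defs

/-!
# Project KO, block F: determinants, the polynomial part
-/

set_option autoImplicit false

namespace Pool.Agent.KO

open Polynomial

/-- The determinant with rows `u`, `x`, `y`. -/
def det3 {R : Type*} [CommRing R] (u x y : Fin 3 → R) : R :=
  u 0 * (x 1 * y 2 - x 2 * y 1) - u 1 * (x 0 * y 2 - x 2 * y 0) + u 2 * (x 0 * y 1 - x 1 * y 0)

theorem det3_deg {u x y : Fin 3 → ℂ[X]} (hu : ∀ j, (u j).natDegree ≤ 1)
    (hx : ∀ j, (x j).natDegree ≤ 4) (hy : ∀ j, (y j).natDegree ≤ 6) :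
    (det3 u x y).natDegree ≤ 11 := by
  have h2 : ∀ i j k, (u i * (x j * y k)).natDegree ≤ 11 := fun i j k =>
    (natDegree_mul_le).trans (by
      have := natDegree_mul_le (p := x j) (q := y k)
      have h1 := hu i
      have h2 := hx j
      have h3 := hy k
      omega)
  unfold det3
  simp only [mul_sub]
  exact (natDegree_add_le _ _).trans (max_le ((natDegree_sub_le _ _).trans (max_le
    ((natDegree_sub_le _ _).trans (max_le (h2 _ _ _) (h2 _ _ _)))
    ((natDegree_sub_le _ _).trans (max_le (h2 _ _ _) (h2 _ _ _)))))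
    ((natDegree_sub_le _ _).trans (max_le (h2 _ _ _) (h2 _ _ _))))

theorem det3_coeff {u x y : Fin 3 → ℂ[X]} (hu : ∀ j, (u j).natDegree ≤ 1)
    (hx : ∀ j, (x j).natDegree ≤ 4) (hy : ∀ j, (y j).natDegree ≤ 6) :
    (det3 u x y).coeff 11 = det3 (fun j => (u j).coeff 1) (fun j => (x j).coeff 4)
      (fun j => (y j).coeff 6) := by
  have h2 : ∀ i j k, (u i * (x j * y k)).coeff 11 = (u i).coeff 1 * ((x j).coeff 4 * (y k).coeff 6) := by
    intro i j k
    have h3 : (x j * y k).natDegree ≤ 10 := by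
      have := natDegree_mul_le (p := x j) (q := y k)
      have h2 := hx j
      have h3 := hy k
      omega
    rw [show 11 = 1 + 10 from rfl, coeff_mul_add_eq_of_natDegree_le (hu i) h3,
      show 10 = 4 + 6 from rfl, coeff_mul_add_eq_of_natDegree_le (hx j) (hy k)]
  unfold det3
  simp only [mul_sub, coeff_add, coeff_sub, h2]

theorem det3_rel {R : Type*} [CommRing R] {u x y t : Fin 3 → R} {s gu gx gy : R}
    (h : ∀ j, s * t j + gu * u j + gx * x j + gy * y j = 0) :
    gy * det3 u x y = -(s * det3 t u x) := by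
  unfold det3
  linear_combination (u 0 * x 1 - u 1 * x 0) * h 2 - (u 0 * x 2 - u 2 * x 0) * h 1
    + (u 1 * x 2 - u 2 * x 1) * h 0

theorem det3_poly {u x y t : Fin 3 → ℂ[X]} {gu gx gy : ℂ[X]} (hu : ∀ j, (u j).natDegree ≤ 1)
    (hx : ∀ j, (x j).natDegree ≤ 4) (hy : ∀ j, (y j).natDegree ≤ 6)
    (hc : det3 (fun j => (u j).coeff 1) (fun j => (x j).coeff 4) (fun j => (y j).coeff 6)
      = -1 / 6)
    (hrel : ∀ j, X ^ 11 * t j + gu * u j + gx * x j + gy * y j = 0) (hg : gy.coeff 0 ≠ 0) :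
    det3 u x y = C (-1 / 6) * X ^ 11 ∧ det3 t u x = C (1 / 6) * gy := by
  have hr := det3_rel hrel
  have hcop : IsCoprime (X ^ 11 : ℂ[X]) gy := by
    apply IsCoprime.pow_left
    rw [(irreducible_X (R := ℂ)).coprime_iff_not_dvd, X_dvd_iff]
    exact hg
  have hdvd : (X ^ 11 : ℂ[X]) ∣ det3 u x y := by
    refine hcop.dvd_of_dvd_mul_left ?_
    rw [hr]
    exact (dvd_mul_right _ _).neg_right
  have h1 : det3 u x y = C (-1 / 6) * X ^ 11 := by
    ext n
    rcases lt_trichotomy n 11 with h | h | h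
    · rw [X_pow_dvd_iff.1 hdvd n h, coeff_C_mul_X_pow, if_neg (by omega)]
    · subst h
      rw [det3_coeff hu hx hy, hc, coeff_C_mul_X_pow, if_pos rfl]
    · rw [coeff_eq_zero_of_natDegree_lt (lt_of_le_of_lt (det3_deg hu hx hy) h),
        coeff_C_mul_X_pow, if_neg (by omega)]
  refine ⟨h1, ?_⟩
  rw [h1] at hr
  have h2 : (X ^ 11 : ℂ[X]) * (det3 t u x - C (1 / 6) * gy) = 0 := by
    have : (C (-1 / 6) : ℂ[X]) = - C (1 / 6) := by rw [← C_neg]; norm_num
    rw [this] at hr
    linear_combination hr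
  have h3 := (mul_eq_zero.1 h2).resolve_left (pow_ne_zero _ X_ne_zero)
  exact sub_eq_zero.1 h3

end Pool.Agent.KO
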