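import Pool.Agent.KO.F.F2
import Pool.Agent.KO.F.F3
import Pool.Agent.KO.F.F4a

/-!
# Project KO, block F: the Jacobian determinants of the chart
-/

set_option autoImplicit false

namespace Pool.Agent.KO

open Polynomial

/-- `U` as a polynomial in `w`. -/
noncomputable def polU (c : Fin 11 → ℂ) (q : Fin 5 → ℂ) : ℂ[X] :=
  C (-q 0) * X + C (q 1 * q 3 ^ 7 + q 3 ^ 5 * c 10)

/-- `X` as a polynomial in `w`. -/
noncomputable def polX (c : Fin 11 → ℂ) (q : Fin 5 → ℂ) : ℂ[X] :=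
  C (-q 1 / 3) * X ^ 4 + C (q 3 ^ 4 * (1 + c 9)) * X ^ 3 + C (q 3 ^ 10 * c 8) * X ^ 2
    + C (q 3 ^ 16 * c 7) * X + C (q 2 * q 3 ^ 25 / 3 + q 3 ^ 22 * c 6)

/-- `Y` as a polynomial in `w`. -/
noncomputable def polY (c : Fin 11 → ℂ) (q : Fin 5 → ℂ) : ℂ[X] :=
  C (-q 2 / 2) * X ^ 6 + C (q 3 ^ 3 * c 5) * X ^ 5 + C (q 3 ^ 9 * c 4) * X ^ 4
    + C (q 3 ^ 15 * c 3) * X ^ 3 + C (q 3 ^ 21 * c 2) * X ^ 2 + C (q 3 ^ 27 * c 1) * X
    + C (q 3 ^ 33 * (1 + c 0))

/-- The derivative of `U` in the direction `v`, where the derivative of `c` is `γ`. -/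
noncomputable def dU (γ : Fin 11 → ℂ) (q v : Fin 5 → ℂ) : ℂ[X] :=
  C (-v 0) * X + C (v 1 * q 3 ^ 7 + q 3 ^ 5 * γ 10)

/-- The derivative of `X` in the direction `v`, where the derivative of `c` is `γ`. -/
noncomputable def dX (γ : Fin 11 → ℂ) (q v : Fin 5 → ℂ) : ℂ[X] :=
  C (-v 1 / 3) * X ^ 4 + C (q 3 ^ 4 * γ 9) * X ^ 3 + C (q 3 ^ 10 * γ 8) * X ^ 2
    + C (q 3 ^ 16 * γ 7) * X + C (v 2 * q 3 ^ 25 / 3 + q 3 ^ 22 * γ 6)

/-- The derivative of `Y` in the direction `v`, where the derivative of `c` is `γ`. -/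
noncomputable def dY (γ : Fin 11 → ℂ) (q v : Fin 5 → ℂ) : ℂ[X] :=
  C (-v 2 / 2) * X ^ 6 + C (q 3 ^ 3 * γ 5) * X ^ 5 + C (q 3 ^ 9 * γ 4) * X ^ 4
    + C (q 3 ^ 15 * γ 3) * X ^ 3 + C (q 3 ^ 21 * γ 2) * X ^ 2 + C (q 3 ^ 27 * γ 1) * X
    + C (q 3 ^ 33 * γ 0)

/-- The derivative of `T` in the direction `v`, where the derivative of `c` is `γ`. -/
noncomputable def dT (c γ : Fin 11 → ℂ) (q v : Fin 5 → ℂ) : ℂ[X] :=
  C (-12 * q 0 ^ 11 * v 0) * X ^ 2
    + C (q 1 ^ 2 * v 1 / 9 - q 2 * v 2 / 2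
      + 132 * q 0 ^ 10 * v 0 * (q 1 * q 3 ^ 7 + q 3 ^ 5 * c 10)
      + 12 * q 0 ^ 11 * (v 1 * q 3 ^ 7 + q 3 ^ 5 * γ 10)) * X
    + C (v 0 * q 3 - (2 * (1 + c 9) * q 1 * v 1 + γ 9 * q 1 ^ 2) * q 3 ^ 4 / 3
      + (v 2 * c 5 + q 2 * γ 5) * q 3 ^ 3
      - 660 * q 0 ^ 9 * v 0 * (q 1 * q 3 ^ 7 + q 3 ^ 5 * c 10) ^ 2
      - 132 * q 0 ^ 10 * (q 1 * q 3 ^ 7 + q 3 ^ 5 * c 10) * (v 1 * q 3 ^ 7 + q 3 ^ 5 * γ 10))

/-- The derivatives of the functions of the chart along a line where `z`, `w` are constant. -/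
theorem line_deriv {c : (Fin 3 → ℂ) → (Fin 11 → ℂ)} {q v : Fin 5 → ℂ} {γ : Fin 11 → ℂ}
    (h3 : v 3 = 0) (h4 : v 4 = 0)
    (hγ : ∀ k, HasDerivAt (fun s : ℂ => c (sc (q + s • v)) k) (γ k) 0) :
    HasDerivAt (fun s : ℂ => Phi c (q + s • v) 1) ((dU γ q v).eval (q 4)) 0 ∧
    HasDerivAt (fun s : ℂ => Phi c (q + s • v) 3) ((dX γ q v).eval (q 4)) 0 ∧
    HasDerivAt (fun s : ℂ => Phi c (q + s • v) 4) ((dY γ q v).eval (q 4)) 0 ∧
    HasDerivAt (fun s : ℂ => Phi c (q + s • v) 5) ((dT (c (sc q)) γ q v).eval (q 4)) 0 := by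
  have p : ∀ i : Fin 5, HasDerivAt (fun s : ℂ => q i + s * v i) (v i) 0 := by
    intro i
    simpa using ((hasDerivAt_id (0 : ℂ)).mul_const (v i)).const_add (q i)
  have z0 : q + (0 : ℂ) • v = q := by simp
  have e : ∀ (s : ℂ) (i : Fin 5), (q + s • v) i = q i + s * v i := fun s i => rfl
  have e3 : ∀ s : ℂ, (q + s • v) 3 = q 3 := fun s => by rw [e, h3]; ring
  have e4 : ∀ s : ℂ, (q + s • v) 4 = q 4 := fun s => by rw [e, h4]; ring
  refine ⟨?_, ?_, ?_, ?_⟩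
  · have h : (fun s : ℂ => Phi c (q + s • v) 1) = fun s => -(q 0 + s * v 0) * q 4
        + (q 1 + s * v 1) * q 3 ^ 7 + q 3 ^ 5 * c (sc (q + s • v)) 10 := by
      funext s
      show phiU _ _ = _
      unfold phiU
      rw [e3, e4]
      rfl
    rw [h]
    refine ((((p 0).neg.mul_const (q 4)).add ((p 1).mul_const (q 3 ^ 7))).add
      ((hγ 10).const_mul (q 3 ^ 5))).congr_deriv ?_
    simp only [dU, eval_add, eval_mul, eval_C, eval_X]
    ring
  · have h : (fun s : ℂ => Phi c (q + s • v) 3) = fun s => q 3 ^ 4 * q 4 ^ 3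
        + (-(q 1 + s * v 1) * q 4 ^ 4 + (q 2 + s * v 2) * q 3 ^ 25) * 3⁻¹
        + q 3 ^ 22 * c (sc (q + s • v)) 6 + q 3 ^ 16 * q 4 * c (sc (q + s • v)) 7
        + q 3 ^ 10 * q 4 ^ 2 * c (sc (q + s • v)) 8
        + q 3 ^ 4 * q 4 ^ 3 * c (sc (q + s • v)) 9 := by
      funext s
      show phiX _ _ = _
      unfold phiX
      rw [e3, e4, e, e]
      ring
    rw [h]
    have k1 := ((p 1).neg.mul_const (q 4 ^ 4)).add ((p 2).mul_const (q 3 ^ 25))
    have k2 := (k1.mul_const 3⁻¹).const_add (q 3 ^ 4 * q 4 ^ 3)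
    have k3 := (k2.add ((hγ 6).const_mul (q 3 ^ 22))).add ((hγ 7).const_mul (q 3 ^ 16 * q 4))
    have k4 := (k3.add ((hγ 8).const_mul (q 3 ^ 10 * q 4 ^ 2))).add
      ((hγ 9).const_mul (q 3 ^ 4 * q 4 ^ 3))
    refine k4.congr_deriv ?_
    simp only [dX, eval_add, eval_mul, eval_C, eval_X, eval_pow]
    ring
  · have h : (fun s : ℂ => Phi c (q + s • v) 4) = fun s => q 3 ^ 33
        + -(q 2 + s * v 2) * (q 4 ^ 6 / 2)
        + q 3 ^ 33 * c (sc (q + s • v)) 0 + q 3 ^ 27 * q 4 * c (sc (q + s • v)) 1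
        + q 3 ^ 21 * q 4 ^ 2 * c (sc (q + s • v)) 2 + q 3 ^ 15 * q 4 ^ 3 * c (sc (q + s • v)) 3
        + q 3 ^ 9 * q 4 ^ 4 * c (sc (q + s • v)) 4
        + q 3 ^ 3 * q 4 ^ 5 * c (sc (q + s • v)) 5 := by
      funext s
      show phiY _ _ = _
      unfold phiY
      rw [e3, e4, e]
      ring
    rw [h]
    have k1 := ((p 2).neg.mul_const (q 4 ^ 6 / 2)).const_add (q 3 ^ 33)
    have k2 := (k1.add ((hγ 0).const_mul (q 3 ^ 33))).add ((hγ 1).const_mul (q 3 ^ 27 * q 4))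
    have k3 := (k2.add ((hγ 2).const_mul (q 3 ^ 21 * q 4 ^ 2))).add
      ((hγ 3).const_mul (q 3 ^ 15 * q 4 ^ 3))
    have k4 := (k3.add ((hγ 4).const_mul (q 3 ^ 9 * q 4 ^ 4))).add
      ((hγ 5).const_mul (q 3 ^ 3 * q 4 ^ 5))
    refine k4.congr_deriv ?_
    simp only [dY, eval_add, eval_mul, eval_C, eval_X, eval_pow]
    ring
  · have u := ((p 1).mul_const (q 3 ^ 7)).add ((hγ 10).const_mul (q 3 ^ 5))
    have h : (fun s : ℂ => Phi c (q + s • v) 5) = fun s => (q 0 + s * v 0) * q 3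
        - (1 + c (sc (q + s • v)) 9) * (q 1 + s * v 1) ^ 2 * (q 3 ^ 4 / 3)
        + (q 2 + s * v 2) * c (sc (q + s • v)) 5 * q 3 ^ 3
        - (q 0 + s * v 0) ^ 10 * ((q 1 + s * v 1) * q 3 ^ 7
          + q 3 ^ 5 * c (sc (q + s • v)) 10) ^ 2 * 66
        + ((q 1 + s * v 1) ^ 3 * 27⁻¹ - (q 2 + s * v 2) ^ 2 * 4⁻¹
          + (q 0 + s * v 0) ^ 11 * ((q 1 + s * v 1) * q 3 ^ 7
            + q 3 ^ 5 * c (sc (q + s • v)) 10) * 12) * q 4
        - (q 0 + s * v 0) ^ 12 * q 4 ^ 2 := by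
      funext s
      show phiT _ _ = _
      unfold phiT
      rw [e3, e4, e, e, e]
      ring
    rw [h]
    have k1 := ((p 0).mul_const (q 3)).sub
      ((((hγ 9).const_add 1).mul ((p 1).pow 2)).mul_const (q 3 ^ 4 / 3))
    have k2 := k1.add (((p 2).mul (hγ 5)).mul_const (q 3 ^ 3))
    have k3 := k2.sub ((((p 0).pow 10).mul (u.pow 2)).mul_const 66)
    have k4 := (((p 1).pow 3).mul_const 27⁻¹).sub (((p 2).pow 2).mul_const 4⁻¹)
    have k5 := (k4.add ((((p 0).pow 11).mul u).mul_const 12)).mul_const (q 4)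
    have k6 := (k3.add k5).sub (((p 0).pow 12).mul_const (q 4 ^ 2))
    refine k6.congr_deriv ?_
    simp only [dT, eval_add, eval_mul, eval_C, eval_X, eval_pow, Pi.add_apply]
    simp only [z0, zero_mul, add_zero]
    norm_num
    ring

theorem dU_deg (γ : Fin 11 → ℂ) (q v : Fin 5 → ℂ) : (dU γ q v).natDegree ≤ 1 := by
  unfold dU
  compute_degree

theorem dX_deg (γ : Fin 11 → ℂ) (q v : Fin 5 → ℂ) : (dX γ q v).natDegree ≤ 4 := by
  unfold dX
  compute_degree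

theorem dY_deg (γ : Fin 11 → ℂ) (q v : Fin 5 → ℂ) : (dY γ q v).natDegree ≤ 6 := by
  unfold dY
  compute_degree

theorem dU_coeff (γ : Fin 11 → ℂ) (q v : Fin 5 → ℂ) : (dU γ q v).coeff 1 = -v 0 := by
  simp only [dU, coeff_add, coeff_C_mul, coeff_X, coeff_C]
  norm_num

theorem dX_coeff (γ : Fin 11 → ℂ) (q v : Fin 5 → ℂ) : (dX γ q v).coeff 4 = -v 1 / 3 := by
  simp only [dX, coeff_add, coeff_C_mul, coeff_X_pow, coeff_X, coeff_C]
  norm_num

theorem dY_coeff (γ : Fin 11 → ℂ) (q v : Fin 5 → ℂ) : (dY γ q v).coeff 6 = -v 2 / 2 := by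
  simp only [dY, coeff_add, coeff_C_mul, coeff_X_pow, coeff_X, coeff_C]
  norm_num

/-- The relation between the derivatives at a point. -/
theorem rel_at {ε : ℝ} {c : (Fin 3 → ℂ) → (Fin 11 → ℂ)} (h : IsSol ε c) {q v : Fin 5 → ℂ}
    (hq : sc q ∈ Metric.ball (0 : Fin 3 → ℂ) ε) {γ : Fin 11 → ℂ}
    (h3 : v 3 = 0) (h4 : v 4 = 0)
    (hγ : ∀ k, HasDerivAt (fun s : ℂ => c (sc (q + s • v)) k) (γ k) 0) :
    q 4 ^ 11 * (dT (c (sc q)) γ q v).eval (q 4)
      + (q 3 * q 4 ^ 10 + 12 * Phi c q 1 ^ 11 * q 4) * (dU γ q v).eval (q 4)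
      + 3 * Phi c q 3 ^ 2 * (dX γ q v).eval (q 4) + 2 * Phi c q 4 * (dY γ q v).eval (q 4) = 0 := by
  obtain ⟨hU, hX, hY, hT⟩ := line_deriv h3 h4 hγ
  have e : ∀ (s : ℂ) (i : Fin 5), (q + s • v) i = q i + s * v i := fun s i => rfl
  have e3 : ∀ s : ℂ, (q + s • v) 3 = q 3 := fun s => by rw [e, h3]; ring
  have e4 : ∀ s : ℂ, (q + s • v) 4 = q 4 := fun s => by rw [e, h4]; ring
  have hG : (fun s : ℂ => G (Phi c (q + s • v))) = fun s => Phi c (q + s • v) 4 ^ 2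
      + Phi c (q + s • v) 3 ^ 3 + Phi c (q + s • v) 5 * q 4 ^ 11
      + Phi c (q + s • v) 1 * (q 3 * q 4 ^ 10) + Phi c (q + s • v) 1 ^ 12 * q 4
      + (- q 3 ^ 66 - q 3 ^ 12 * q 4 ^ 9) := by
    funext s
    have e0 : Phi c (q + s • v) 0 = (q + s • v) 3 := rfl
    have e2 : Phi c (q + s • v) 2 = (q + s • v) 4 := rfl
    unfold G
    rw [e0, e2, e3, e4]
    ring
  have d1 : HasDerivAt (fun s : ℂ => G (Phi c (q + s • v))) 0 0 := by
    have ev : ∀ᶠ s : ℂ in nhds 0, G (Phi c (q + s • v)) = 0 := by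
      have hcont : ContinuousAt (fun s : ℂ => sc (q + s • v)) 0 := by
        have h1 : ContinuousAt sc (q + (0 : ℂ) • v) := (sc_analyticAt _).continuousAt
        exact h1.comp (f := fun s : ℂ => q + s • v) (by fun_prop)
      have hmem : Metric.ball (0 : Fin 3 → ℂ) ε ∈ nhds (sc (q + (0 : ℂ) • v)) := by
        refine Metric.isOpen_ball.mem_nhds ?_
        rw [zero_smul, add_zero]
        exact hq
      filter_upwards [hcont hmem] with s hs
      exact G_Phi h hs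
    exact (hasDerivAt_const (0 : ℂ) (0 : ℂ)).congr_of_eventuallyEq ev
  rw [hG] at d1
  have z0 : q + (0 : ℂ) • v = q := by simp
  have k1 := ((hY.pow 2).add (hX.pow 3)).add (hT.mul_const (q 4 ^ 11))
  have k2 := ((k1.add (hU.mul_const (q 3 * q 4 ^ 10))).add ((hU.pow 12).mul_const (q 4))).add_const
    (- q 3 ^ 66 - q 3 ^ 12 * q 4 ^ 9)
  have k3 := k2.unique d1
  simp only [z0] at k3
  rw [← k3]
  norm_num
  ring

/-- The relation between the derivatives, as polynomials in `w`. -/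
theorem rel_poly {ε : ℝ} {c : (Fin 3 → ℂ) → (Fin 11 → ℂ)} (h : IsSol ε c) {q v : Fin 5 → ℂ}
    (hq : sc q ∈ Metric.ball (0 : Fin 3 → ℂ) ε) {γ : Fin 11 → ℂ}
    (h3 : v 3 = 0) (h4 : v 4 = 0)
    (hγ : ∀ k, HasDerivAt (fun s : ℂ => c (sc (q + s • v)) k) (γ k) 0) :
    X ^ 11 * dT (c (sc q)) γ q v
      + (C (q 3) * X ^ 10 + 12 * polU (c (sc q)) q ^ 11 * X) * dU γ q v
      + 3 * polX (c (sc q)) q ^ 2 * dX γ q v + 2 * polY (c (sc q)) q * dY γ q v = 0 := by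
  apply Polynomial.funext
  intro r
  have hs : ∀ s : ℂ, sc (Function.update q 4 r + s • v) = sc (q + s • v) := by
    intro s
    ext i
    fin_cases i <;> simp [sc]
  have hs0 : sc (Function.update q 4 r) = sc q := by
    have := hs 0
    simpa using this
  have key := rel_at h (q := Function.update q 4 r) (v := v) (γ := γ) (by rw [hs0]; exact hq) h3 h4
    (fun k => by simp only [hs]; exact hγ k)
  rw [hs0] at key
  have u4 : Function.update q 4 r 4 = r := by simp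
  have u3 : Function.update q 4 r 3 = q 3 := by simp
  have u2 : Function.update q 4 r 2 = q 2 := by simp
  have u1 : Function.update q 4 r 1 = q 1 := by simp
  have u0 : Function.update q 4 r 0 = q 0 := by simp
  have eU : Phi c (Function.update q 4 r) 1 = (polU (c (sc q)) q).eval r := by
    show phiU (c (sc (Function.update q 4 r))) (Function.update q 4 r) = _
    rw [hs0, phiU, u0, u1, u3, u4, polU]
    simp only [eval_add, eval_mul, eval_C, eval_X]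
    ring
  have eX : Phi c (Function.update q 4 r) 3 = (polX (c (sc q)) q).eval r := by
    show phiX (c (sc (Function.update q 4 r))) (Function.update q 4 r) = _
    rw [hs0, phiX, u1, u2, u3, u4, polX]
    simp only [eval_add, eval_mul, eval_C, eval_X, eval_pow]
    ring
  have eY : Phi c (Function.update q 4 r) 4 = (polY (c (sc q)) q).eval r := by
    show phiY (c (sc (Function.update q 4 r))) (Function.update q 4 r) = _
    rw [hs0, phiY, u2, u3, u4, polY]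
    simp only [eval_add, eval_mul, eval_C, eval_X, eval_pow]
    ring
  have dU' : dU γ (Function.update q 4 r) v = dU γ q v := by
    rw [dU, dU, u3]
  have dX' : dX γ (Function.update q 4 r) v = dX γ q v := by
    rw [dX, dX, u3]
  have dY' : dY γ (Function.update q 4 r) v = dY γ q v := by
    rw [dY, dY, u3]
  have dT' : dT (c (sc q)) γ (Function.update q 4 r) v = dT (c (sc q)) γ q v := by
    rw [dT, dT, u0, u1, u2, u3]
  rw [eU, eX, eY, dU', dX', dY', dT', u4, u3] at key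
  simp only [eval_add, eval_mul, eval_C, eval_X, eval_pow, eval_ofNat, eval_zero]
  exact key

/-- The derivatives of the functions of the chart in a direction where `z`, `w` are constant. -/
theorem fderiv_Phi {ε : ℝ} {c : (Fin 3 → ℂ) → (Fin 11 → ℂ)} (h : IsSol ε c) {q : Fin 5 → ℂ}
    (hq : sc q ∈ Metric.ball (0 : Fin 3 → ℂ) ε) {v : Fin 5 → ℂ} (h3 : v 3 = 0) (h4 : v 4 = 0) :
    ∃ γ : Fin 11 → ℂ, (∀ k, HasDerivAt (fun s : ℂ => c (sc (q + s • v)) k) (γ k) 0) ∧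
      fderiv ℂ (fun q => Phi c q 1) q v = (dU γ q v).eval (q 4) ∧
      fderiv ℂ (fun q => Phi c q 3) q v = (dX γ q v).eval (q 4) ∧
      fderiv ℂ (fun q => Phi c q 4) q v = (dY γ q v).eval (q 4) ∧
      fderiv ℂ (fun q => Phi c q 5) q v = (dT (c (sc q)) γ q v).eval (q 4) := by
  have hγ : ∀ k, HasDerivAt (fun s : ℂ => c (sc (q + s • v)) k)
      (fderiv ℂ (fun q => c (sc q) k) q v) 0 := fun k =>
    (csc_analyticAt h hq k).differentiableAt.hasFDerivAt.hasLineDerivAt v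
  have hΦ : ∀ i, HasDerivAt (fun s : ℂ => Phi c (q + s • v) i)
      (fderiv ℂ (fun q => Phi c q i) q v) 0 := fun i =>
    (Phi_analyticAt h hq i).differentiableAt.hasFDerivAt.hasLineDerivAt v
  obtain ⟨hU, hX, hY, hT⟩ := line_deriv h3 h4 hγ
  exact ⟨_, hγ, (hΦ 1).unique hU, (hΦ 3).unique hX, (hΦ 4).unique hY, (hΦ 5).unique hT⟩

theorem det_eq_det3 (f : Matrix (Fin 3) (Fin 3) ℂ) : Matrix.det f = det3 (f 0) (f 1) (f 2) := by
  rw [Matrix.det_fin_three]
  unfold det3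
  ring

theorem eval_det3 (u x y : Fin 3 → ℂ[X]) (r : ℂ) :
    (det3 u x y).eval r = det3 (fun j => (u j).eval r) (fun j => (x j).eval r)
      (fun j => (y j).eval r) := by
  simp [det3]

theorem Phi_jac_both {ε : ℝ} {c : (Fin 3 → ℂ) → (Fin 11 → ℂ)} (h : IsSol ε c) {q : Fin 5 → ℂ}
    (hq : sc q ∈ Metric.ball (0 : Fin 3 → ℂ) ε) :
    Matrix.det (fun i j : Fin 3 => fderiv ℂ (fun q => Phi c q (![1, 3, 4] i)) q
      (Pi.single (![0, 1, 2] j) 1)) = -q 4 ^ 11 / 6 ∧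
    Matrix.det (fun i j : Fin 3 => fderiv ℂ (fun q => Phi c q (![5, 1, 3] i)) q
      (Pi.single (![0, 1, 2] j) 1)) = Phi c q 4 / 3 := by
  set v : Fin 3 → Fin 5 → ℂ := fun j => Pi.single (![0, 1, 2] j) 1 with hv
  have v3 : ∀ j, v j 3 = 0 := by
    intro j
    fin_cases j <;> simp [hv]
  have v4 : ∀ j, v j 4 = 0 := by
    intro j
    fin_cases j <;> simp [hv]
  choose γ hγ hU hX hY hT using fun j => fderiv_Phi h hq (v3 j) (v4 j)
  have gU : (fun j => fderiv ℂ (fun q => Phi c q 1) q (v j)) =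
    fun j => (dU (γ j) q (v j)).eval (q 4) := funext hU
  have gX : (fun j => fderiv ℂ (fun q => Phi c q 3) q (v j)) =
    fun j => (dX (γ j) q (v j)).eval (q 4) := funext hX
  have gY : (fun j => fderiv ℂ (fun q => Phi c q 4) q (v j)) =
    fun j => (dY (γ j) q (v j)).eval (q 4) := funext hY
  have gT : (fun j => fderiv ℂ (fun q => Phi c q 5) q (v j)) =
    fun j => (dT (c (sc q)) (γ j) q (v j)).eval (q 4) := funext hT
  suffices hmain : det3 (fun j => fderiv ℂ (fun q => Phi c q 1) q (v j))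
      (fun j => fderiv ℂ (fun q => Phi c q 3) q (v j))
      (fun j => fderiv ℂ (fun q => Phi c q 4) q (v j)) = -q 4 ^ 11 / 6 ∧
    det3 (fun j => fderiv ℂ (fun q => Phi c q 5) q (v j))
      (fun j => fderiv ℂ (fun q => Phi c q 1) q (v j))
      (fun j => fderiv ℂ (fun q => Phi c q 3) q (v j)) = Phi c q 4 / 3 from
    ⟨(det_eq_det3 _).trans hmain.1, (det_eq_det3 _).trans hmain.2⟩
  rw [gU, gX, gY, gT]
  have w00 : v 0 0 = 1 := by simp [hv]
  have w01 : v 0 1 = 0 := by simp [hv]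
  have w02 : v 0 2 = 0 := by simp [hv]
  have w10 : v 1 0 = 0 := by simp [hv]
  have w11 : v 1 1 = 1 := by simp [hv]
  have w12 : v 1 2 = 0 := by simp [hv]
  have w20 : v 2 0 = 0 := by simp [hv]
  have w21 : v 2 1 = 0 := by simp [hv]
  have w22 : v 2 2 = 1 := by simp [hv]
  by_cases hz : q 3 = 0
  · have hY4 := (Phi_z0 h hz).2.2.1
    rw [hY4]
    simp only [det3, dU, dX, dY, dT, hz, w00, w01, w02, w10, w11, w12, w20, w21, w22, eval_add,
      eval_mul, eval_C, eval_X, eval_pow]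
    constructor
    · ring
    · ring
  · have hc : det3 (fun j => (dU (γ j) q (v j)).coeff 1) (fun j => (dX (γ j) q (v j)).coeff 4)
        (fun j => (dY (γ j) q (v j)).coeff 6) = -1 / 6 := by
      simp only [dU_coeff, dX_coeff, dY_coeff, det3, w00, w01, w02, w10, w11, w12, w20, w21, w22]
      norm_num
    have hg : (2 * polY (c (sc q)) q).coeff 0 ≠ 0 := by
      have h1 : (2 * polY (c (sc q)) q).coeff 0 = 2 * (q 3 ^ 33 * (1 + c (sc q) 0)) := by
        have : (2 : ℂ[X]) = C 2 := rfl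
        rw [this, coeff_C_mul]
        simp only [polY, coeff_add, coeff_C_mul, coeff_X_pow, coeff_X, coeff_C]
        norm_num
      rw [h1]
      have h2 : (1 : ℂ) + c (sc q) 0 ≠ 0 := by
        intro h0
        have h3 : ‖c (sc q) 0‖ < 1 := lt_of_le_of_lt (norm_le_pi_norm _ 0) (h.small _ hq)
        have h4 : c (sc q) 0 = -1 := by linear_combination h0
        rw [h4, norm_neg, norm_one] at h3
        exact lt_irrefl _ h3
      exact mul_ne_zero two_ne_zero (mul_ne_zero (pow_ne_zero _ hz) h2)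
    obtain ⟨k1, k2⟩ := det3_poly (fun j => dU_deg (γ j) q (v j)) (fun j => dX_deg (γ j) q (v j))
      (fun j => dY_deg (γ j) q (v j)) hc (fun j => rel_poly h hq (v3 j) (v4 j) (hγ j)) hg
    have m1 := congrArg (fun P : ℂ[X] => P.eval (q 4)) k1
    have m2 := congrArg (fun P : ℂ[X] => P.eval (q 4)) k2
    simp only [eval_det3, eval_mul, eval_C, eval_X, eval_pow, eval_ofNat] at m1 m2
    have eY : Phi c q 4 = (polY (c (sc q)) q).eval (q 4) := by
      show phiY (c (sc q)) q = _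
      rw [phiY, polY]
      simp only [eval_add, eval_mul, eval_C, eval_X, eval_pow]
      ring
    rw [m1, m2, eY]
    constructor
    · ring
    · ring

theorem Phi_jac {ε : ℝ} {c : (Fin 3 → ℂ) → (Fin 11 → ℂ)} (h : IsSol ε c) {q : Fin 5 → ℂ}
    (hq : sc q ∈ Metric.ball (0 : Fin 3 → ℂ) ε) :
    Matrix.det (fun i j : Fin 3 => fderiv ℂ (fun q => Phi c q (![1, 3, 4] i)) q
    (Pi.single (![0, 1, 2] j) 1)) = -q 4 ^ 11 / 6 := (Phi_jac_both h hq).1

theorem Phi_jacT {ε : ℝ} {c : (Fin 3 → ℂ) → (Fin 11 → ℂ)} (h : IsSol ε c) {q : Fin 5 → ℂ}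
    (hq : sc q ∈ Metric.ball (0 : Fin 3 → ℂ) ε) :
    Matrix.det (fun i j : Fin 3 => fderiv ℂ (fun q => Phi c q (![5, 1, 3] i)) q
    (Pi.single (![0, 1, 2] j) 1)) = Phi c q 4 / 3 := (Phi_jac_both h hq).2

end Pool.Agent.KO
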