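import Mathlib
import Pool.Agent.KO.F.Defs

/-!
# The local inverse of the flip chart
-/

set_option autoImplicit false

namespace Pool.Agent.KO

open Set Filter Topology

/-- The inverse function theorem, in the form used. -/
theorem exists_loc_inv {n : ℕ} {f : (Fin n → ℂ) → (Fin n → ℂ)} {q : Fin n → ℂ}
    (h : AnalyticAt ℂ f q) (hinj : ∀ v, fderiv ℂ f q v = 0 → v = 0) :
    ∃ g : (Fin n → ℂ) → (Fin n → ℂ), AnalyticAt ℂ g (f q) ∧ g (f q) = q ∧
      (∀ᶠ q' in 𝓝 q, g (f q') = q') ∧ ∀ᶠ s in 𝓝 (f q), f (g s) = s := by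
  have hi : Function.Injective ((fderiv ℂ f q : (Fin n → ℂ) →ₗ[ℂ] (Fin n → ℂ))) :=
    (injective_iff_map_eq_zero _).2 hinj
  let e : (Fin n → ℂ) ≃L[ℂ] (Fin n → ℂ) :=
    (LinearEquiv.ofInjectiveEndo _ hi).toContinuousLinearEquiv
  have he : (e : (Fin n → ℂ) →L[ℂ] (Fin n → ℂ)) = fderiv ℂ f q := by
    apply ContinuousLinearMap.ext
    intro v
    rfl
  have hs : HasStrictFDerivAt f (e : (Fin n → ℂ) →L[ℂ] (Fin n → ℂ)) q := by
    rw [he]
    exact h.hasStrictFDerivAt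
  refine ⟨hs.localInverse f e q, ?_, hs.localInverse_apply_image, hs.eventually_left_inverse,
    hs.eventually_right_inverse⟩
  exact (hs.toOpenPartialHomeomorph f).analyticAt_symm' hs.mem_toOpenPartialHomeomorph_source h
    he.symm

/-- Three coordinates with non-zero determinant, together with `(z, w)`, are coordinates. -/
theorem chart_inv {Φ : (Fin 5 → ℂ) → (Fin 6 → ℂ)} {q : Fin 5 → ℂ} (σ : Fin 3 → Fin 6)
    (han : ∀ i, AnalyticAt ℂ (fun q => Φ q i) q)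
    (hdet : Matrix.det (fun i j : Fin 3 => fderiv ℂ (fun q => Φ q (σ i)) q
        (Pi.single (![0, 1, 2] j) 1)) ≠ 0) :
    ∃ g : (Fin 5 → ℂ) → (Fin 5 → ℂ),
      AnalyticAt ℂ g ![Φ q (σ 0), Φ q (σ 1), Φ q (σ 2), q 3, q 4] ∧
      g ![Φ q (σ 0), Φ q (σ 1), Φ q (σ 2), q 3, q 4] = q ∧
      (∀ᶠ q' in 𝓝 q, g ![Φ q' (σ 0), Φ q' (σ 1), Φ q' (σ 2), q' 3, q' 4] = q') ∧
      ∀ᶠ s in 𝓝 ![Φ q (σ 0), Φ q (σ 1), Φ q (σ 2), q 3, q 4],
        ![Φ (g s) (σ 0), Φ (g s) (σ 1), Φ (g s) (σ 2), g s 3, g s 4] = s := by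
  set f : (Fin 5 → ℂ) → (Fin 5 → ℂ) :=
    fun q => ![Φ q (σ 0), Φ q (σ 1), Φ q (σ 2), q 3, q 4] with hf
  have hfa : AnalyticAt ℂ f q := by
    rw [analyticAt_pi_iff]
    intro i
    fin_cases i
    · exact han (σ 0)
    · exact han (σ 1)
    · exact han (σ 2)
    · exact (ContinuousLinearMap.proj (R := ℂ) (φ := fun _ : Fin 5 => ℂ) 3).analyticAt q
    · exact (ContinuousLinearMap.proj (R := ℂ) (φ := fun _ : Fin 5 => ℂ) 4).analyticAt q
  have hcomp : ∀ i v, fderiv ℂ f q v i = fderiv ℂ (fun x => f x i) q v := by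
    intro i v
    have := (hasFDerivAt_pi'.1 hfa.differentiableAt.hasFDerivAt i).fderiv
    rw [this]
    rfl
  refine exists_loc_inv hfa ?_
  intro v hv
  have h3 : v 3 = 0 := by
    have := congrFun hv 3
    rw [hcomp] at this
    have e : (fun x => f x 3) = (ContinuousLinearMap.proj (R := ℂ) (φ := fun _ : Fin 5 => ℂ) 3) :=
      rfl
    rw [e, ContinuousLinearMap.fderiv] at this
    exact this
  have h4 : v 4 = 0 := by
    have := congrFun hv 4
    rw [hcomp] at this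
    have e : (fun x => f x 4) = (ContinuousLinearMap.proj (R := ℂ) (φ := fun _ : Fin 5 => ℂ) 4) :=
      rfl
    rw [e, ContinuousLinearMap.fderiv] at this
    exact this
  have hvs : v = v 0 • Pi.single 0 1 + v 1 • Pi.single 1 1 + v 2 • Pi.single 2 1 := by
    ext i
    fin_cases i <;> simp [h3, h4]
  have key : ∀ i : Fin 3, fderiv ℂ (fun x => Φ x (σ i)) q v = 0 := by
    intro i
    fin_cases i
    · have := congrFun hv 0
      rwa [hcomp] at this
    · have := congrFun hv 1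
      rwa [hcomp] at this
    · have := congrFun hv 2
      rwa [hcomp] at this
  have hM : Matrix.mulVec (fun i j : Fin 3 => fderiv ℂ (fun q => Φ q (σ i)) q
        (Pi.single (![0, 1, 2] j) 1)) ![v 0, v 1, v 2] = 0 := by
    ext i
    have h := key i
    rw [hvs, map_add, map_add, map_smul, map_smul, map_smul, smul_eq_mul, smul_eq_mul,
      smul_eq_mul] at h
    simp only [Matrix.mulVec, dotProduct, Fin.sum_univ_three, Pi.zero_apply]
    rw [← h]
    simp only [Matrix.cons_val_zero, Matrix.cons_val_one, Matrix.cons_val]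
    ring
  have h0 := Matrix.eq_zero_of_mulVec_eq_zero hdet hM
  have e0 : v 0 = 0 := congrFun h0 0
  have e1 : v 1 = 0 := congrFun h0 1
  have e2 : v 2 = 0 := congrFun h0 2
  rw [hvs, e0, e1, e2]
  simp

theorem analyticAt_vec5 (a b c d e : Fin 6) (p : Fin 6 → ℂ) :
    AnalyticAt ℂ (fun p : Fin 6 → ℂ => (![p a, p b, p c, p d, p e] : Fin 5 → ℂ)) p := by
  rw [analyticAt_pi_iff]
  intro i
  fin_cases i
  · exact (ContinuousLinearMap.proj (R := ℂ) (φ := fun _ : Fin 6 => ℂ) a).analyticAt p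
  · exact (ContinuousLinearMap.proj (R := ℂ) (φ := fun _ : Fin 6 => ℂ) b).analyticAt p
  · exact (ContinuousLinearMap.proj (R := ℂ) (φ := fun _ : Fin 6 => ℂ) c).analyticAt p
  · exact (ContinuousLinearMap.proj (R := ℂ) (φ := fun _ : Fin 6 => ℂ) d).analyticAt p
  · exact (ContinuousLinearMap.proj (R := ℂ) (φ := fun _ : Fin 6 => ℂ) e).analyticAt p

/-- ROW KO-F5 -/
theorem loc_of_det {Φ : (Fin 5 → ℂ) → (Fin 6 → ℂ)} {q : Fin 5 → ℂ}
    (han : ∀ i, AnalyticAt ℂ (fun q => Φ q i) q)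
    (hz : ∀ q, Φ q 0 = q 3) (hw : ∀ q, Φ q 2 = q 4)
    (hG : ∀ᶠ q' in 𝓝 q, G (Φ q') = 0)
    (hdet : (q 4 ≠ 0 ∧ Matrix.det (fun i j : Fin 3 => fderiv ℂ (fun q => Φ q (![1, 3, 4] i)) q
        (Pi.single (![0, 1, 2] j) 1)) ≠ 0) ∨
      (Φ q 4 ≠ 0 ∧ Matrix.det (fun i j : Fin 3 => fderiv ℂ (fun q => Φ q (![5, 1, 3] i)) q
        (Pi.single (![0, 1, 2] j) 1)) ≠ 0)) :
    ∃ Ψ : (Fin 6 → ℂ) → (Fin 5 → ℂ),
      AnalyticAt ℂ Ψ (Φ q) ∧ Ψ (Φ q) = q ∧ (∀ᶠ q' in 𝓝 q, Ψ (Φ q') = q') ∧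
        ∀ᶠ p in 𝓝 (Φ q), G p = 0 → Φ (Ψ p) = p := by
  have hΦc : ContinuousAt Φ q := by
    rw [continuousAt_pi]
    exact fun i => (han i).continuousAt
  rcases hdet with ⟨h4, hdet⟩ | ⟨hY, hdet⟩
  · obtain ⟨g, hg, hgq, hl, hr⟩ := chart_inv ![1, 3, 4] han hdet
    have eq1 : ∀ q' : Fin 5 → ℂ, (![Φ q' 1, Φ q' 3, Φ q' 4, Φ q' 0, Φ q' 2] : Fin 5 → ℂ) =
        ![Φ q' ((![1, 3, 4] : Fin 3 → Fin 6) 0), Φ q' ((![1, 3, 4] : Fin 3 → Fin 6) 1),
          Φ q' ((![1, 3, 4] : Fin 3 → Fin 6) 2), q' 3, q' 4] := by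
      intro q'
      rw [hz, hw]
      rfl
    have hΨ : AnalyticAt ℂ (fun p : Fin 6 → ℂ => g ![p 1, p 3, p 4, p 0, p 2]) (Φ q) := by
      refine AnalyticAt.fun_comp (g := g) (f := fun p : Fin 6 → ℂ =>
        (![p 1, p 3, p 4, p 0, p 2] : Fin 5 → ℂ)) ?_ (analyticAt_vec5 1 3 4 0 2 _)
      rw [eq1]
      exact hg
    refine ⟨fun p => g ![p 1, p 3, p 4, p 0, p 2], hΨ, ?_, ?_, ?_⟩
    · show g ![Φ q 1, Φ q 3, Φ q 4, Φ q 0, Φ q 2] = q
      rw [eq1]
      exact hgq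
    · filter_upwards [hl] with q' hq'
      show g ![Φ q' 1, Φ q' 3, Φ q' 4, Φ q' 0, Φ q' 2] = q'
      rw [eq1]
      exact hq'
    · have hc : ContinuousAt (fun p : Fin 6 → ℂ => g ![p 1, p 3, p 4, p 0, p 2]) (Φ q) :=
        hΨ.continuousAt
      have hval : g ![Φ q 1, Φ q 3, Φ q 4, Φ q 0, Φ q 2] = q := by
        rw [eq1]
        exact hgq
      have t1 : ∀ᶠ p in 𝓝 (Φ q), G (Φ (g ![p 1, p 3, p 4, p 0, p 2])) = 0 := by
        have : Tendsto (fun p : Fin 6 → ℂ => g ![p 1, p 3, p 4, p 0, p 2]) (𝓝 (Φ q)) (𝓝 q) := by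
          have := hc.tendsto
          simp only [hval] at this
          exact this
        exact this.eventually hG
      have t2 : ∀ᶠ p : Fin 6 → ℂ in 𝓝 (Φ q), p 2 ≠ 0 := by
        refine (continuous_apply 2).continuousAt.eventually_ne ?_
        rw [hw]
        exact h4
      have t3 : ∀ᶠ p in 𝓝 (Φ q), ![Φ (g ![p 1, p 3, p 4, p 0, p 2]) ((![1, 3, 4] : Fin 3 → Fin 6) 0),
          Φ (g ![p 1, p 3, p 4, p 0, p 2]) ((![1, 3, 4] : Fin 3 → Fin 6) 1),
          Φ (g ![p 1, p 3, p 4, p 0, p 2]) ((![1, 3, 4] : Fin 3 → Fin 6) 2),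
          g ![p 1, p 3, p 4, p 0, p 2] 3, g ![p 1, p 3, p 4, p 0, p 2] 4] =
            ![p 1, p 3, p 4, p 0, p 2] := by
        have hcv : ContinuousAt (fun p : Fin 6 → ℂ =>
            (![p 1, p 3, p 4, p 0, p 2] : Fin 5 → ℂ)) (Φ q) :=
          (analyticAt_vec5 1 3 4 0 2 _).continuousAt
        rw [← eq1] at hr
        exact hcv.tendsto.eventually hr
      filter_upwards [t1, t2, t3] with p h1 h2 h3 hp
      set q' := g ![p 1, p 3, p 4, p 0, p 2] with hq'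
      have a0 : Φ q' 1 = p 1 := congrFun h3 0
      have a1 : Φ q' 3 = p 3 := congrFun h3 1
      have a2 : Φ q' 4 = p 4 := congrFun h3 2
      have a3 : Φ q' 0 = p 0 := by
        rw [hz]
        exact congrFun h3 3
      have a4 : Φ q' 2 = p 2 := by
        rw [hw]
        exact congrFun h3 4
      have a5 : Φ q' 5 = p 5 := by
        simp only [G, a0, a1, a2, a3, a4] at h1
        simp only [G] at hp
        have : (Φ q' 5 - p 5) * p 2 ^ 11 = 0 := by linear_combination h1 - hp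
        rcases mul_eq_zero.1 this with h | h
        · exact sub_eq_zero.1 h
        · exact absurd h (pow_ne_zero _ h2)
      show Φ q' = p
      ext i
      fin_cases i
      · exact a3
      · exact a0
      · exact a4
      · exact a1
      · exact a2
      · exact a5
  · obtain ⟨g, hg, hgq, hl, hr⟩ := chart_inv ![5, 1, 3] han hdet
    have eq1 : ∀ q' : Fin 5 → ℂ, (![Φ q' 5, Φ q' 1, Φ q' 3, Φ q' 0, Φ q' 2] : Fin 5 → ℂ) =
        ![Φ q' ((![5, 1, 3] : Fin 3 → Fin 6) 0), Φ q' ((![5, 1, 3] : Fin 3 → Fin 6) 1),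
          Φ q' ((![5, 1, 3] : Fin 3 → Fin 6) 2), q' 3, q' 4] := by
      intro q'
      rw [hz, hw]
      rfl
    have hΨ : AnalyticAt ℂ (fun p : Fin 6 → ℂ => g ![p 5, p 1, p 3, p 0, p 2]) (Φ q) := by
      refine AnalyticAt.fun_comp (g := g) (f := fun p : Fin 6 → ℂ =>
        (![p 5, p 1, p 3, p 0, p 2] : Fin 5 → ℂ)) ?_ (analyticAt_vec5 5 1 3 0 2 _)
      rw [eq1]
      exact hg
    refine ⟨fun p => g ![p 5, p 1, p 3, p 0, p 2], hΨ, ?_, ?_, ?_⟩
    · show g ![Φ q 5, Φ q 1, Φ q 3, Φ q 0, Φ q 2] = q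
      rw [eq1]
      exact hgq
    · filter_upwards [hl] with q' hq'
      show g ![Φ q' 5, Φ q' 1, Φ q' 3, Φ q' 0, Φ q' 2] = q'
      rw [eq1]
      exact hq'
    · have hc : ContinuousAt (fun p : Fin 6 → ℂ => g ![p 5, p 1, p 3, p 0, p 2]) (Φ q) :=
        hΨ.continuousAt
      have hval : g ![Φ q 5, Φ q 1, Φ q 3, Φ q 0, Φ q 2] = q := by
        rw [eq1]
        exact hgq
      have t0 : Tendsto (fun p : Fin 6 → ℂ => g ![p 5, p 1, p 3, p 0, p 2]) (𝓝 (Φ q)) (𝓝 q) := by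
        have := hc.tendsto
        simp only [hval] at this
        exact this
      have t1 : ∀ᶠ p in 𝓝 (Φ q), G (Φ (g ![p 5, p 1, p 3, p 0, p 2])) = 0 :=
        t0.eventually hG
      have t2 : ∀ᶠ p : Fin 6 → ℂ in 𝓝 (Φ q), Φ (g ![p 5, p 1, p 3, p 0, p 2]) 4 + p 4 ≠ 0 := by
        have hc1 : ContinuousAt (fun p : Fin 6 → ℂ => Φ (g ![p 5, p 1, p 3, p 0, p 2]) 4) (Φ q) := by
          have hc2 : Tendsto (fun q' => Φ q' 4) (𝓝 q) (𝓝 (Φ q 4)) := (han 4).continuousAt.tendsto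
          have hc3 := hc2.comp t0
          show Tendsto _ _ (𝓝 (Φ (g ![Φ q 5, Φ q 1, Φ q 3, Φ q 0, Φ q 2]) 4))
          rw [hval]
          exact hc3
        have hc4 : ContinuousAt (fun p : Fin 6 → ℂ => Φ (g ![p 5, p 1, p 3, p 0, p 2]) 4 + p 4)
            (Φ q) := hc1.add (continuous_apply 4).continuousAt
        refine hc4.eventually_ne ?_
        rw [hval]
        intro h
        apply hY
        have : (2 : ℂ) * Φ q 4 = 0 := by linear_combination h
        simpa using this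
      have t3 : ∀ᶠ p in 𝓝 (Φ q), ![Φ (g ![p 5, p 1, p 3, p 0, p 2]) ((![5, 1, 3] : Fin 3 → Fin 6) 0),
          Φ (g ![p 5, p 1, p 3, p 0, p 2]) ((![5, 1, 3] : Fin 3 → Fin 6) 1),
          Φ (g ![p 5, p 1, p 3, p 0, p 2]) ((![5, 1, 3] : Fin 3 → Fin 6) 2),
          g ![p 5, p 1, p 3, p 0, p 2] 3, g ![p 5, p 1, p 3, p 0, p 2] 4] =
            ![p 5, p 1, p 3, p 0, p 2] := by
        have hcv : ContinuousAt (fun p : Fin 6 → ℂ =>
            (![p 5, p 1, p 3, p 0, p 2] : Fin 5 → ℂ)) (Φ q) :=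
          (analyticAt_vec5 5 1 3 0 2 _).continuousAt
        rw [← eq1] at hr
        exact hcv.tendsto.eventually hr
      filter_upwards [t1, t2, t3] with p h1 h2 h3 hp
      set q' := g ![p 5, p 1, p 3, p 0, p 2] with hq'
      have a0 : Φ q' 5 = p 5 := congrFun h3 0
      have a1 : Φ q' 1 = p 1 := congrFun h3 1
      have a2 : Φ q' 3 = p 3 := congrFun h3 2
      have a3 : Φ q' 0 = p 0 := by
        rw [hz]
        exact congrFun h3 3
      have a4 : Φ q' 2 = p 2 := by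
        rw [hw]
        exact congrFun h3 4
      have a5 : Φ q' 4 = p 4 := by
        simp only [G, a0, a1, a2, a3, a4] at h1
        simp only [G] at hp
        have : (Φ q' 4 - p 4) * (Φ q' 4 + p 4) = 0 := by linear_combination h1 - hp
        rcases mul_eq_zero.1 this with h | h
        · exact sub_eq_zero.1 h
        · exact absurd h h2
      show Φ q' = p
      ext i
      fin_cases i
      · exact a3
      · exact a1
      · exact a4
      · exact a2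
      · exact a5
      · exact a0

end Pool.Agent.KO
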