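import Mathlib
import Pool.Agent.KO.F.Defs
import Pool.Agent.KO.F.Size

/-!
# The flip chart is injective near `Γ`
-/

set_option autoImplicit false

namespace Pool.Agent.KO

open Set Filter Topology Size

/-- ROW KO-F6 -/
theorem inj_of_loc {Φ : (Fin 5 → ℂ) → (Fin 6 → ℂ)} {ρ : ℝ} (hρ : 0 < ρ)
    (hact : ∀ l : ℂ, l ≠ 0 → ∀ q ∈ Dom ρ, Φ (act' l q) = act l (Φ q))
    (hz : ∀ q, Φ q 0 = q 3) (hw : ∀ q, Φ q 2 = q 4)
    (hloc : ∀ z w : ℂ, (z ≠ 0 ∨ w ≠ 0) → ∃ Ψ : (Fin 6 → ℂ) → (Fin 5 → ℂ),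
      ∀ᶠ q' in 𝓝 ![0, 0, 0, z, w], Ψ (Φ q') = q') :
    ∃ ρ' : ℝ, 0 < ρ' ∧ ρ' ≤ ρ ∧ ∀ q ∈ Dom ρ', ∀ q' ∈ Dom ρ', (q 3 ≠ 0 ∨ q 4 ≠ 0) →
      Φ q = Φ q' → q = q' := by
  have hK : IsCompact (Metric.sphere (0 : ℂ × ℂ) 1) := isCompact_sphere _ _
  have hev : ∀ᶠ x : (Fin 3 → ℂ) × (Fin 3 → ℂ) in 𝓝 (0, 0), ∀ y ∈ Metric.sphere (0 : ℂ × ℂ) 1,
      Φ (qOf x.1 y) = Φ (qOf x.2 y) → qOf x.1 y = qOf x.2 y := by
    refine hK.eventually_forall_of_forall_eventually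
      (P := fun (x : (Fin 3 → ℂ) × (Fin 3 → ℂ)) (y : ℂ × ℂ) => Φ (qOf x.1 y) = Φ (qOf x.2 y) → qOf x.1 y = qOf x.2 y) ?_
    rintro ⟨z, w⟩ hy
    obtain ⟨Ψ, hΨ⟩ := hloc z w (sphere_ne hy)
    have c1 : Tendsto (fun x : ((Fin 3 → ℂ) × (Fin 3 → ℂ)) × (ℂ × ℂ) => qOf x.1.1 x.2)
        (𝓝 ((0, 0), (z, w))) (𝓝 ![0, 0, 0, z, w]) := by
      have := (continuous_qOf.comp ((continuous_fst.comp continuous_fst).prodMk
        continuous_snd : Continuous fun x : ((Fin 3 → ℂ) × (Fin 3 → ℂ)) × (ℂ × ℂ) =>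
          (x.1.1, x.2))).tendsto ((0, 0), (z, w))
      exact this
    have c2 : Tendsto (fun x : ((Fin 3 → ℂ) × (Fin 3 → ℂ)) × (ℂ × ℂ) => qOf x.1.2 x.2)
        (𝓝 ((0, 0), (z, w))) (𝓝 ![0, 0, 0, z, w]) := by
      have := (continuous_qOf.comp ((continuous_snd.comp continuous_fst).prodMk
        continuous_snd : Continuous fun x : ((Fin 3 → ℂ) × (Fin 3 → ℂ)) × (ℂ × ℂ) =>
          (x.1.2, x.2))).tendsto ((0, 0), (z, w))
      exact this
    filter_upwards [c1.eventually hΨ, c2.eventually hΨ] with x h1 h2 h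
    rw [← h1, ← h2, h]
  obtain ⟨σ, hσ0, hσ⟩ := Metric.eventually_nhds_iff.1 hev
  refine ⟨min (min σ 1) ρ, lt_min (lt_min hσ0 one_pos) hρ, min_le_right _ _, ?_⟩
  intro q hq q' hq' hne he
  have hqρ : q ∈ Dom ρ := Dom_mono (min_le_right _ _) hq
  have hqρ' : q' ∈ Dom ρ := Dom_mono (min_le_right _ _) hq'
  have e3 : q 3 = q' 3 := by rw [← hz q, ← hz q', he]
  have e4 : q 4 = q' 4 := by rw [← hw q, ← hw q', he]
  obtain ⟨l, hl, hl1, hl2⟩ := exists_norm hne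
  have hZ : nZ q = nZ q' := by
    unfold nZ
    rw [e3, e4]
  have hl1' : nZ (act' l q') = 1 := by
    rw [nZ_act', ← hZ, ← nZ_act']
    exact hl1
  have hm : q ∈ Dom (min σ 1) := Dom_mono (min_le_left _ _) hq
  have hm' : q' ∈ Dom (min σ 1) := Dom_mono (min_le_left _ _) hq'
  have hA : nA (act' l q) < min σ 1 := by
    rw [hl2]
    exact hm
  have hA' : nA (act' l q') < min σ 1 := by
    have h := nAZ_act' hl q'
    rw [hl1', mul_one] at h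
    rw [h]
    exact hm'
  have n1 := (vec3_lt hA (min_le_right _ _)).trans_le (min_le_left _ _)
  have n2 := (vec3_lt hA' (min_le_right _ _)).trans_le (min_le_left _ _)
  have hd : dist ((![act' l q 0, act' l q 1, act' l q 2], ![act' l q' 0, act' l q' 1, act' l q' 2]) :
      (Fin 3 → ℂ) × (Fin 3 → ℂ)) (0, 0) < σ := by
    rw [Prod.dist_eq]
    simp only [dist_zero_right]
    exact max_lt n1 n2
  have key := hσ hd _ (mem_sphere hl1)
  have f3 : act' l q 3 = act' l q' 3 := by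
    simp only [act', e3]
  have f4 : act' l q 4 = act' l q' 4 := by
    simp only [act', e4]
  have g1 : qOf ![act' l q 0, act' l q 1, act' l q 2] (act' l q 3, act' l q 4) = act' l q :=
    qOf_eta _
  have g2 : qOf ![act' l q' 0, act' l q' 1, act' l q' 2] (act' l q 3, act' l q 4) = act' l q' := by
    rw [f3, f4]
    exact qOf_eta _
  simp only [g1, g2] at key
  refine act'_inj hl (key ?_)
  rw [hact l hl q hqρ, hact l hl q' hqρ', he]

end Pool.Agent.KO
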