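import Mathlib
import Pool.Agent.KO.F.Defs
import Pool.Agent.KO.F.Size

/-!
# The parameter is small on the flip chart
-/

set_option autoImplicit false

namespace Pool.Agent.KO

open Set Filter Topology Size

/-- ROW KO-F8 -/
theorem small_of {Φ : (Fin 5 → ℂ) → (Fin 6 → ℂ)} {ρ : ℝ} (hρ : 0 < ρ)
    (han : ∀ i, AnalyticOnNhd ℂ (fun q => Φ q i) (Dom ρ))
    (hact : ∀ l : ℂ, l ≠ 0 → ∀ q ∈ Dom ρ, Φ (act' l q) = act l (Φ q))
    (hA : ∀ z w : ℂ, Φ ![0, 0, 0, z, w] 5 = 0)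
    (h0 : ∀ q, q 3 = 0 → q 4 = 0 → Φ q 5 = 0) :
    ∃ ρ' : ℝ, 0 < ρ' ∧ ρ' ≤ ρ ∧ ∀ q ∈ Dom ρ', ‖Φ q 5‖ < 1 := by
  have hK : IsCompact (Metric.sphere (0 : ℂ × ℂ) 1) := isCompact_sphere _ _
  have hev : ∀ᶠ x : Fin 3 → ℂ in 𝓝 0, ∀ y ∈ Metric.sphere (0 : ℂ × ℂ) 1,
      ‖Φ (qOf x y) 5‖ < 1 := by
    refine hK.eventually_forall_of_forall_eventually
      (P := fun (x : Fin 3 → ℂ) (y : ℂ × ℂ) => ‖Φ (qOf x y) 5‖ < 1) ?_
    rintro ⟨z, w⟩ hy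
    have hm : (![0, 0, 0, z, w] : Fin 5 → ℂ) ∈ Dom ρ := by
      show nA ![0, 0, 0, z, w] * nZ ![0, 0, 0, z, w] < ρ
      have : nA ![0, 0, 0, z, w] = 0 := by
        simp [nA]
      rw [this, zero_mul]
      exact hρ
    have c1 : Tendsto (fun x : (Fin 3 → ℂ) × (ℂ × ℂ) => qOf x.1 x.2)
        (𝓝 (0, (z, w))) (𝓝 ![0, 0, 0, z, w]) := continuous_qOf.tendsto (0, (z, w))
    have c2 : Tendsto (fun q => ‖Φ q 5‖) (𝓝 ![0, 0, 0, z, w]) (𝓝 0) := by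
      have := (han 5 _ hm).continuousAt.norm.tendsto
      rwa [hA, norm_zero] at this
    exact (c2.comp c1).eventually (gt_mem_nhds one_pos)
  obtain ⟨σ, hσ0, hσ⟩ := Metric.eventually_nhds_iff.1 hev
  refine ⟨min (min σ 1) ρ, lt_min (lt_min hσ0 one_pos) hρ, min_le_right _ _, ?_⟩
  intro q hq
  have hqρ : q ∈ Dom ρ := Dom_mono (min_le_right _ _) hq
  by_cases hne : q 3 ≠ 0 ∨ q 4 ≠ 0
  · obtain ⟨l, hl, hl1, hl2⟩ := exists_norm hne
    have hm : q ∈ Dom (min σ 1) := Dom_mono (min_le_left _ _) hq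
    have hA : nA (act' l q) < min σ 1 := by
      rw [hl2]
      exact hm
    have n1 := (vec3_lt hA (min_le_right _ _)).trans_le (min_le_left _ _)
    have key := hσ (y := ![act' l q 0, act' l q 1, act' l q 2]) (by rwa [dist_zero_right]) _
      (mem_sphere hl1)
    rw [qOf_eta, hact l hl q hqρ] at key
    have e : act l (Φ q) 5 = Φ q 5 := by simp [act, wgt]
    rwa [e] at key
  · push Not at hne
    rw [h0 q hne.1 hne.2, norm_zero]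
    exact one_pos

end Pool.Agent.KO
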