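import Mathlib
import Pool.Agent.KO.F.Defs
import Pool.Agent.KO.F.Size

/-!
# The closed tubes are closed
-/

set_option autoImplicit false

namespace Pool.Agent.KO

open Set Filter Topology Size

theorem isCompact_tube (ε : ℝ) : IsCompact {q : Fin 5 → ℂ | nZ q = 1 ∧ nA q ≤ ε} := by
  refine Metric.isCompact_of_isClosed_isBounded ?_ ?_
  · exact (isClosed_eq continuous_nZ continuous_const).inter
      (isClosed_le continuous_nA continuous_const)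
  · rw [isBounded_iff_forall_norm_le]
    refine ⟨1 + |ε| + |ε| ^ 2 + |ε| ^ 3, ?_⟩
    rintro q ⟨hZ, hA⟩
    have hA' : nA q ≤ |ε| := hA.trans (le_abs_self _)
    have h0 : ‖q 0‖ ≤ |ε| := (le_max_left _ _).trans hA'
    have h1 : ‖q 1‖ ^ (1 / 2 : ℝ) ≤ |ε| :=
      ((le_max_left _ _).trans (le_max_right _ _)).trans hA'
    have h2 : ‖q 2‖ ^ (1 / 3 : ℝ) ≤ |ε| :=
      ((le_max_right _ _).trans (le_max_right _ _)).trans hA'
    have h1' : ‖q 1‖ ≤ |ε| ^ 2 := by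
      have := pow_le_pow_left₀ (Real.rpow_nonneg (norm_nonneg _) _) h1 2
      have e : (‖q 1‖ ^ (1 / 2 : ℝ)) ^ 2 = ‖q 1‖ := by
        have := Real.rpow_inv_natCast_pow (norm_nonneg (q 1)) (n := 2) (by norm_num)
        simpa using this
      rwa [e] at this
    have h2' : ‖q 2‖ ≤ |ε| ^ 3 := by
      have := pow_le_pow_left₀ (Real.rpow_nonneg (norm_nonneg _) _) h2 3
      have e : (‖q 2‖ ^ (1 / 3 : ℝ)) ^ 3 = ‖q 2‖ := by
        have := Real.rpow_inv_natCast_pow (norm_nonneg (q 2)) (n := 3) (by norm_num)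
        simpa using this
      rwa [e] at this
    obtain ⟨h3, h4, -⟩ := nZ_one hZ
    have p0 : 0 ≤ |ε| := abs_nonneg _
    have p2 : 0 ≤ |ε| ^ 2 := by positivity
    have p3 : 0 ≤ |ε| ^ 3 := by positivity
    rw [pi_norm_le_iff_of_nonneg (by positivity)]
    intro i
    fin_cases i
    · show ‖q 0‖ ≤ _
      linarith
    · show ‖q 1‖ ≤ _
      linarith
    · show ‖q 2‖ ≤ _
      linarith
    · show ‖q 3‖ ≤ _
      linarith
    · show ‖q 4‖ ≤ _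
      linarith

/-- ROW KO-F9 -/
theorem closed_of {Φ : (Fin 5 → ℂ) → (Fin 6 → ℂ)} {ρ : ℝ} (hρ : 0 < ρ)
    (han : ∀ i, AnalyticOnNhd ℂ (fun q => Φ q i) (Dom ρ))
    (hact : ∀ l : ℂ, l ≠ 0 → ∀ q ∈ Dom ρ, Φ (act' l q) = act l (Φ q))
    (hz : ∀ q, Φ q 0 = q 3) (hw : ∀ q, Φ q 2 = q 4) :
    ∀ ε, 0 < ε → ε < ρ → ∀ p : Fin 6 → ℂ, G p = 0 → (∃ i : Fin 6, i ≠ 5 ∧ p i ≠ 0) →
    p ∈ closure {p' | ∃ q, nA q * nZ q ≤ ε ∧ (q 3 ≠ 0 ∨ q 4 ≠ 0) ∧ Φ q = p'} →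
    ∃ q, nA q * nZ q ≤ ε ∧ (q 3 ≠ 0 ∨ q 4 ≠ 0) ∧ Φ q = p := by
  intro ε hε0 hε p _ hp hcl
  set T : Set (Fin 6 → ℂ) := {p' | ∃ q, nA q * nZ q ≤ ε ∧ (q 3 ≠ 0 ∨ q 4 ≠ 0) ∧ Φ q = p'} with hT
  set K : Set (Fin 5 → ℂ) := {q : Fin 5 → ℂ | nZ q = 1 ∧ nA q ≤ ε} with hK
  have hKc : IsCompact K := isCompact_tube ε
  have hKD : K ⊆ Dom ρ := by
    rintro q ⟨h1, h2⟩
    show nA q * nZ q < ρ
    rw [h1, mul_one]
    exact h2.trans_lt hε
  have hΦc : ContinuousOn Φ K := by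
    intro q hq
    refine ContinuousAt.continuousWithinAt ?_
    rw [continuousAt_pi]
    exact fun i => (han i q (hKD hq)).continuousAt
  have hcomp : IsCompact (Φ '' K) := hKc.image_of_continuousOn hΦc
  obtain ⟨C, hC⟩ := isBounded_iff_forall_norm_le.1 hcomp.isBounded
  -- normal form of the points of the tube
  have hnf : ∀ p' ∈ T, nP p' ≠ 0 ∧ act (((nP p')⁻¹ : ℝ) : ℂ) p' ∈ Φ '' K := by
    rintro p' ⟨q, hq, hne, rfl⟩
    have hZ0 : nZ q ≠ 0 := nZ_ne.1 hne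
    have hZp : 0 < nZ q := lt_of_le_of_ne (nZ_nonneg q) hZ0.symm
    have hqD : q ∈ Dom ρ := lt_of_le_of_lt hq hε
    have hPZ : nP (Φ q) = nZ q := nP_eq hz hw q
    rw [hPZ]
    have hl : (((nZ q)⁻¹ : ℝ) : ℂ) ≠ 0 := by
      simp [hZ0]
    have hln : ‖(((nZ q)⁻¹ : ℝ) : ℂ)‖ = (nZ q)⁻¹ := by
      rw [Complex.norm_real, Real.norm_of_nonneg (inv_nonneg.2 hZp.le)]
    refine ⟨hZ0, act' (((nZ q)⁻¹ : ℝ) : ℂ) q, ⟨?_, ?_⟩, hact _ hl q hqD⟩
    · rw [nZ_act', hln, inv_mul_cancel₀ hZ0]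
    · rw [nA_act', hln, inv_inv, mul_comm]
      exact hq
  -- the size of the coordinates in the tube
  have hact_inv : ∀ p' : Fin 6 → ℂ, nP p' ≠ 0 →
      act ((nP p' : ℝ) : ℂ) (act (((nP p')⁻¹ : ℝ) : ℂ) p') = p' := by
    intro p' h
    rw [act_act]
    have : ((nP p' : ℝ) : ℂ) * (((nP p')⁻¹ : ℝ) : ℂ) = 1 := by
      rw [← Complex.ofReal_mul, mul_inv_cancel₀ h, Complex.ofReal_one]
    rw [this, act_one]
  have hsz : ∀ i : Fin 6, ∀ p' ∈ T, ‖p' i‖ ≤ nP p' ^ wgt i * C := by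
    intro i p' hp'
    obtain ⟨h1, h2⟩ := hnf p' hp'
    have h3 := hC _ h2
    have h4 := (norm_le_pi_norm (act (((nP p')⁻¹ : ℝ) : ℂ) p') i).trans h3
    have h5 : ‖p' i‖ = nP p' ^ wgt i * ‖act (((nP p')⁻¹ : ℝ) : ℂ) p' i‖ := by
      conv_lhs => rw [← hact_inv p' h1, norm_act]
      rw [Complex.norm_real, Real.norm_of_nonneg (nP_nonneg p')]
    rw [h5]
    exact mul_le_mul_of_nonneg_left h4 (pow_nonneg (nP_nonneg p') _)
  have hsz' : ∀ i : Fin 6, ‖p i‖ ≤ nP p ^ wgt i * C := by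
    intro i
    have hclosed : IsClosed {p' : Fin 6 → ℂ | ‖p' i‖ ≤ nP p' ^ wgt i * C} :=
      isClosed_le (continuous_apply i).norm ((continuous_nP.pow _).mul continuous_const)
    exact closure_minimal (fun p' hp' => hsz i p' hp') hclosed hcl
  have hN : nP p ≠ 0 := by
    intro h0
    obtain ⟨i, hi, hpi⟩ := hp
    apply hpi
    have := hsz' i
    rw [h0, zero_pow, zero_mul] at this
    · exact norm_le_zero_iff.1 this
    · fin_cases i <;> simp [wgt] at hi ⊢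
  -- the limit
  have hcont : ContinuousAt (fun p' : Fin 6 → ℂ => act (((nP p')⁻¹ : ℝ) : ℂ) p') p := by
    rw [continuousAt_pi]
    intro i
    show ContinuousAt (fun p' : Fin 6 → ℂ => ((((nP p')⁻¹ : ℝ) : ℂ)) ^ wgt i * p' i) p
    have h1 : ContinuousAt (fun p' : Fin 6 → ℂ => (((nP p')⁻¹ : ℝ) : ℂ)) p :=
      Complex.continuous_ofReal.continuousAt.comp (continuous_nP.continuousAt.inv₀ hN)
    exact (h1.pow _).mul (continuous_apply i).continuousAt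
  have hlim : act (((nP p)⁻¹ : ℝ) : ℂ) p ∈ Φ '' K := by
    have h1 := hcont.continuousWithinAt.mem_closure_image hcl
    have h2 : (fun p' : Fin 6 → ℂ => act (((nP p')⁻¹ : ℝ) : ℂ) p') '' T ⊆ Φ '' K := by
      rintro _ ⟨p', hp', rfl⟩
      exact (hnf p' hp').2
    exact closure_minimal h2 hcomp.isClosed h1
  obtain ⟨q, hqK, hq⟩ := hlim
  have hNc : ((nP p : ℝ) : ℂ) ≠ 0 := by
    exact_mod_cast hN
  refine ⟨act' ((nP p : ℝ) : ℂ) q, ?_, ?_, ?_⟩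
  · rw [nAZ_act' hNc, hqK.1, mul_one]
    exact hqK.2
  · rw [nZ_ne, nZ_act', hqK.1, mul_one, Complex.norm_real, Real.norm_of_nonneg (nP_nonneg p)]
    exact hN
  · rw [hact _ hNc q (hKD hqK), hq, hact_inv p hN]

end Pool.Agent.KO
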