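import Pool.Agent.KO.F.F1
import Pool.Agent.KO.F.F4
import Pool.Agent.KO.F.F5
import Pool.Agent.KO.F.F6
import Pool.Agent.KO.F.F8
import Pool.Agent.KO.F.F9
import Pool.Agent.KO.X.Defs

/-!
# Project KO, block F: THEOREM F, the flip chart exists
-/

set_option autoImplicit false

namespace Pool.Agent.KO

open Set Filter Topology

/-- The parameters `a` are small on `Dom ρ`. -/
theorem sc_mem_ball {ε ρ : ℝ} (hρ : 0 < ρ) (h1 : ρ ≤ 1) (hε : ρ ≤ ε) {q : Fin 5 → ℂ}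
    (hq : q ∈ Dom ρ) : sc q ∈ Metric.ball (0 : Fin 3 → ℂ) ε := by
  have hA := Size.nA_nonneg q
  have hZ := Size.nZ_nonneg q
  have hAZ : nA q * nZ q < ρ := hq
  have hAZ0 : 0 ≤ nA q * nZ q := mul_nonneg hA hZ
  have a0 : ‖q 0‖ ≤ nA q := le_max_left _ _
  have a1 : ‖q 1‖ ^ (1 / 2 : ℝ) ≤ nA q := (le_max_left _ _).trans (le_max_right _ _)
  have a2 : ‖q 2‖ ^ (1 / 3 : ℝ) ≤ nA q := (le_max_right _ _).trans (le_max_right _ _)
  have z : ‖q 3‖ ≤ nZ q := le_max_left _ _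
  have b1 : ‖q 1‖ ≤ nA q ^ 2 := by
    have e : (‖q 1‖ ^ (1 / 2 : ℝ)) ^ 2 = ‖q 1‖ := by
      rw [← Real.rpow_natCast, ← Real.rpow_mul (norm_nonneg _)]
      norm_num
    rw [← e]
    exact pow_le_pow_left₀ (by positivity) a1 2
  have b2 : ‖q 2‖ ≤ nA q ^ 3 := by
    have e : (‖q 2‖ ^ (1 / 3 : ℝ)) ^ 3 = ‖q 2‖ := by
      rw [← Real.rpow_natCast, ← Real.rpow_mul (norm_nonneg _)]
      norm_num
    rw [← e]
    exact pow_le_pow_left₀ (by positivity) a2 3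
  have l1 : nA q * nZ q < ε := lt_of_lt_of_le hAZ hε
  have l2 : (nA q * nZ q) ^ 2 < ε :=
    lt_of_le_of_lt (pow_le_of_le_one hAZ0 (hAZ.le.trans h1) two_ne_zero) l1
  have l3 : (nA q * nZ q) ^ 3 < ε :=
    lt_of_le_of_lt (pow_le_of_le_one hAZ0 (hAZ.le.trans h1) three_ne_zero) l1
  rw [mem_ball_zero_iff, pi_norm_lt_iff (hρ.trans_le hε)]
  intro i
  fin_cases i
  · show ‖q 0 * q 3‖ < ε
    rw [norm_mul]
    exact lt_of_le_of_lt (mul_le_mul a0 z (norm_nonneg _) hA) l1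
  · show ‖q 1 * q 3 ^ 2‖ < ε
    rw [norm_mul, norm_pow]
    rw [mul_pow] at l2
    exact lt_of_le_of_lt (mul_le_mul b1 (pow_le_pow_left₀ (norm_nonneg _) z 2) (by positivity)
      (by positivity)) l2
  · show ‖q 2 * q 3 ^ 3‖ < ε
    rw [norm_mul, norm_pow]
    rw [mul_pow] at l3
    exact lt_of_le_of_lt (mul_le_mul b2 (pow_le_pow_left₀ (norm_nonneg _) z 3) (by positivity)
      (by positivity)) l3

theorem Dom_mono {ρ ρ' : ℝ} (h : ρ' ≤ ρ) : Dom ρ' ⊆ Dom ρ := fun _ hq => lt_of_lt_of_le hq h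

/-- THEOREM F. -/
theorem exists_flip : Nonempty Flip := by
  obtain ⟨ε, c, h⟩ := exists_isSol
  set ρ₀ : ℝ := min 1 ε with hρ₀
  have ρ₀pos : 0 < ρ₀ := lt_min one_pos h.pos
  have hsc : ∀ q ∈ Dom ρ₀, sc q ∈ Metric.ball (0 : Fin 3 → ℂ) ε := fun q hq =>
    sc_mem_ball ρ₀pos (min_le_left _ _) (min_le_right _ _) hq
  have han : ∀ i, AnalyticOnNhd ℂ (fun q => Phi c q i) (Dom ρ₀) := fun i q hq =>
    Phi_analyticAt h (hsc q hq) i
  have hact : ∀ l : ℂ, l ≠ 0 → ∀ q ∈ Dom ρ₀, Phi c (act' l q) = act l (Phi c q) :=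
    fun l hl q _ => Phi_act l hl q
  have hz : ∀ q, Phi c q 0 = q 3 := fun q => rfl
  have hw : ∀ q, Phi c q 2 = q 4 := fun q => rfl
  have hloc : ∀ q ∈ Dom ρ₀, (q 3 ≠ 0 ∨ q 4 ≠ 0) → ∃ Ψ : (Fin 6 → ℂ) → (Fin 5 → ℂ),
      AnalyticAt ℂ Ψ (Phi c q) ∧ Ψ (Phi c q) = q ∧ (∀ᶠ q' in 𝓝 q, Ψ (Phi c q') = q') ∧
        ∀ᶠ p in 𝓝 (Phi c q), G p = 0 → Phi c (Ψ p) = p := by
    intro q hq hzw
    refine loc_of_det (fun i => han i q hq) hz hw ?_ ?_
    · filter_upwards [(Size.isOpen_Dom ρ₀).mem_nhds hq] with q' hq'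
      exact G_Phi h (hsc q' hq')
    · by_cases h4 : q 4 = 0
      · right
        have h3 : q 3 ≠ 0 := by
          rcases hzw with h3 | h4'
          · exact h3
          · exact absurd h4 h4'
        have hY : Phi c q 4 ≠ 0 := by
          have e : Phi c q 4 = q 3 ^ 33 * (1 + c (sc q) 0) := by
            show phiY _ _ = _
            simp only [phiY, h4]
            ring
          rw [e]
          refine mul_ne_zero (pow_ne_zero _ h3) ?_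
          intro h0
          have h5 : ‖c (sc q) 0‖ < 1 := lt_of_le_of_lt (norm_le_pi_norm _ 0) (h.small _ (hsc q hq))
          have h6 : c (sc q) 0 = -1 := by linear_combination h0
          rw [h6, norm_neg, norm_one] at h5
          exact lt_irrefl _ h5
        refine ⟨hY, ?_⟩
        rw [Phi_jacT h (hsc q hq)]
        exact div_ne_zero hY three_ne_zero
      · left
        refine ⟨h4, ?_⟩
        rw [Phi_jac h (hsc q hq)]
        exact div_ne_zero (neg_ne_zero.2 (pow_ne_zero _ h4)) (by norm_num)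
  have hDom0 : ∀ (ρ : ℝ), 0 < ρ → ∀ q : Fin 5 → ℂ, q 0 = 0 → q 1 = 0 → q 2 = 0 → q ∈ Dom ρ := by
    intro ρ hρ q h0 h1 h2
    show nA q * nZ q < ρ
    have : nA q = 0 := by
      unfold nA
      rw [h0, h1, h2, norm_zero, Real.zero_rpow (by norm_num), Real.zero_rpow (by norm_num)]
      simp
    rw [this, zero_mul]
    exact hρ
  obtain ⟨ρ₁, ρ₁pos, hρ₁, hinj⟩ := inj_of_loc ρ₀pos hact hz hw (by
    intro z w hzw
    obtain ⟨Ψ, -, -, h3, -⟩ := hloc ![0, 0, 0, z, w] (hDom0 ρ₀ ρ₀pos _ rfl rfl rfl) hzw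
    exact ⟨Ψ, h3⟩)
  obtain ⟨ρ₂, ρ₂pos, hρ₂, hsmall⟩ := small_of ρ₀pos han hact
    (fun z w => by rw [Phi_A0 h (q := ![0, 0, 0, z, w]) rfl rfl rfl]; rfl)
    (fun q h3 h4 => by rw [(Phi_z0 h h3).2.2.2, h4]; ring)
  set ρ : ℝ := min ρ₁ ρ₂ with hρ
  have ρpos : 0 < ρ := lt_min ρ₁pos ρ₂pos
  have s1 : Dom ρ ⊆ Dom ρ₁ := Dom_mono (min_le_left _ _)
  have s2 : Dom ρ ⊆ Dom ρ₂ := Dom_mono (min_le_right _ _)
  have s0 : Dom ρ ⊆ Dom ρ₀ := Dom_mono ((min_le_left _ _).trans hρ₁)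
  have hinj' : ∀ q ∈ Dom ρ, ∀ q' ∈ Dom ρ, (q 3 ≠ 0 ∨ q 4 ≠ 0) → Phi c q = Phi c q' → q = q' :=
    fun q hq q' hq' => hinj q (s1 hq) q' (s1 hq')
  refine ⟨⟨ρ, ρpos, Phi c, hz, hw, fun i q hq => han i q (s0 hq),
    fun l hl q hq => hact l hl q (s0 hq), fun q hq => G_Phi h (hsc q (s0 hq)), ?_, ?_, ?_, hinj',
    fun q hq => hloc q (s0 hq), ?_, fun q hq => Phi_jac h (hsc q (s0 hq)),
    fun q hq => Phi_jacT h (hsc q (s0 hq)),
    closed_of ρpos (fun i q hq => han i q (s0 hq)) (fun l hl q hq => hact l hl q (s0 hq)) hz hw⟩⟩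
  · intro q hq hzw
    constructor
    · rintro ⟨g5, g1, g3, g4⟩
      have e : Phi c q = Phi c ![0, 0, 0, q 3, q 4] := by
        rw [Phi_A0 h (q := ![0, 0, 0, q 3, q 4]) rfl rfl rfl]
        ext i
        fin_cases i
        · rfl
        · exact g1
        · rfl
        · exact g3
        · exact g4
        · exact g5
      have e2 := hinj' q hq _ (hDom0 ρ ρpos _ rfl rfl rfl) hzw e
      refine ⟨?_, ?_, ?_⟩
      · exact congrFun e2 0
      · exact congrFun e2 1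
      · exact congrFun e2 2
    · rintro ⟨h0, h1, h2⟩
      rw [Phi_A0 h h0 h1 h2]
      exact ⟨rfl, rfl, rfl, rfl⟩
  · intro q _ h3
    exact Phi_z0 h h3
  · exact fun q hq => hsmall q (s2 hq)
  · exact fun q h3 h4 => Phi_dT h q h3 h4

end Pool.Agent.KO
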